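/-
MP_33c730_lc (helper20), third part: a forest order on a graph without a complete bipartite subgraph
`K_{t,t}`, coded by vertex sets. Definitions only.
-/
import Pool.Agent.Lib.MP_33c730_lc.Notions

set_option autoImplicit false

namespace Pool.MP_33c730_lc.Ws

variable {V : Type}

/-- `v` has at least `j` neighbours in `Q`. -/
def atl (G : SimpleGraph V) (Q : Set V) (j : ℕ) (v : V) : Prop :=
  ∃ f : Fin j → V, Function.Injective f ∧ ∀ i, f i ∈ Q ∧ G.Adj v (f i)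

/-- vertices outside of `Q` with fewer than `t` neighbours in `Q` -/
def Lo (G : SimpleGraph V) (t : ℕ) (Q : Set V) : Set V := {v | v ∉ Q ∧ ¬ atl G Q t v}

/-- the connected component of `x` in `G[X]` (for `x ∈ X`) -/
def cm (G : SimpleGraph V) (X : Set V) (x : V) : Set V :=
  {z | ∀ Y : Set V, x ∈ Y → (∀ u w, u ∈ Y → w ∈ X → G.Adj u w → w ∈ Y) → z ∈ Y}

/-- names of the set parameters: seeds by label, ties; colours, colours of the predecessors. -/
abbrev PW (t : ℕ) : Type := (Fin t ⊕ Fin t) ⊕ (Fin (t + 1) ⊕ Fin (t + 1))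

variable {t : ℕ}

/-- arcs inside `Q` -/
def ar (G : SimpleGraph V) (W : PW t → Set V) (Q : Set V) (y z : V) : Prop :=
  y ∈ Q ∧ z ∈ Q ∧ G.Adj y z ∧ ∃ j, y ∈ W (.inr (.inr j)) ∧ z ∈ W (.inr (.inl j))

/-- `a` is reachable from `y` by arcs inside `Q`: `a` is not later than `y`. -/
def ro (G : SimpleGraph V) (W : PW t → Set V) (Q : Set V) (a y : V) : Prop :=
  ∀ Y : Set V, y ∈ Y → (∀ u w, u ∈ Y → ar G W Q u w → w ∈ Y) → a ∈ Y

/-- the elements of `Q` which are earlier than `y` -/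
def ini (G : SimpleGraph V) (W : PW t → Set V) (Q : Set V) (y : V) : Set V :=
  {a | a ∈ Q ∧ a ≠ y ∧ ro G W Q a y}

/-- `l` is the last element of `P`. -/
def lst (G : SimpleGraph V) (W : PW t → Set V) (P : Set V) (l : V) : Prop :=
  l ∈ P ∧ ∀ a ∈ P, ro G W P a l

/-- `y` is a seed of the block of `x`. -/
def sdr (G : SimpleGraph V) (W : PW t → Set V) (P : Set V) (x y : V) : Prop :=
  y ∈ cm G (Lo G t P) x ∧ ∃ j : Fin t, y ∈ W (.inl (.inl j)) ∧ atl G P j y

/-- comparison of vertices by their neighbourhoods in `P` -/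
def can (G : SimpleGraph V) (W : PW t → Set V) (P : Set V) (u v : V) : Prop :=
  (∃ a ∈ P, G.Adj u a ∧ ¬ G.Adj v a ∧ ∀ b ∈ P, b ≠ a → ro G W P b a → (G.Adj u b ↔ G.Adj v b)) ∨
  ((∀ a ∈ P, G.Adj u a ↔ G.Adj v a) ∧ ∃ i j : Fin t, i < j ∧ u ∈ W (.inl (.inr i)) ∧
    v ∈ W (.inl (.inr j)))

/-- `r` is a connector of the block of `x`. -/
def cnd (G : SimpleGraph V) (W : PW t → Set V) (P : Set V) (x r : V) : Prop :=
  r ∉ P ∧ atl G P t r ∧ (∃ l, lst G W P l ∧ r ∈ Lo G t (P \ {l})) ∧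
    ∃ d ∈ cm G (Lo G t P) x, G.Adj r d

/-- `y` is the next node for `x`. -/
def rul (G : SimpleGraph V) (W : PW t → Set V) (P : Set V) (y x : V) : Prop :=
  x ∈ Lo G t P ∧ (sdr G W P x y ∨ ((∀ z, ¬ sdr G W P x z) ∧ cnd G W P x y ∧
    ∀ r, cnd G W P x r → r ≠ y → can G W P y r))

/-- `Q` is a path of `x`. -/
def vld (G : SimpleGraph V) (W : PW t → Set V) (Q : Set V) (x : V) : Prop :=
  (∀ a ∈ Q, ∀ b ∈ Q, ro G W Q a b ∨ ro G W Q b a) ∧
  (∀ a ∈ Q, ∀ b ∈ Q, ro G W Q a b → ro G W Q b a → a = b) ∧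
  ∀ y ∈ Q, rul G W (ini G W Q y) y x

/-- the coded order -/
def leW (G : SimpleGraph V) (W : PW t → Set V) (u w : V) : Prop :=
  ∃ Q : Set V, vld G W Q u ∧
    ((u ∈ Lo G t Q ∧ sdr G W Q u u ∧ w ∈ cm G (Lo G t Q) u) ∨
      (u ∉ Q ∧ atl G Q t u ∧ w ∉ Q ∧ ∃ l, lst G W Q l ∧ w ∈ cm G (Lo G t (Q \ {l})) u ∧
        (u = w ∨ (atl G Q t w → can G W Q u w))))

/-- `G` has no complete bipartite subgraph `K_{t,t}`. -/
def Ktt (t : ℕ) (G : SimpleGraph V) : Prop :=
  ¬ ∃ f g : Fin t → V, Function.Injective f ∧ Function.Injective g ∧ ∀ i j, G.Adj (f i) (g j)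

/-! ### paths -/

/-- the set of the elements of a list -/
def st (π : List V) : Set V := {a | a ∈ π}

open Classical in
/-- the neighbourhood of `v` on the path (the last element of the list is the most significant) -/
noncomputable def tr (G : SimpleGraph V) : List V → V → ℕ
  | [], _ => 0
  | h :: π, v => 2 * tr G π v + (if G.Adj v h then 0 else 1)

/-- comparison by neighbourhoods on the path and numbers -/
def cn (G : SimpleGraph V) (ν : V → ℕ) (π : List V) (u v : V) : Prop :=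
  tr G π u < tr G π v ∨ (tr G π u = tr G π v ∧ ν u < ν v)

/-- possible seeds of the block `D` -/
def Sds (G : SimpleGraph V) (π : List V) (D : Set V) : Set V :=
  {y | y ∈ D ∧ ∀ h, π.head? = some h → G.Adj h y}

/-- connectors of the block `D` -/
def Cds (G : SimpleGraph V) (t : ℕ) (π : List V) (D : Set V) : Set V :=
  {r | r ∉ π ∧ atl G (st π) t r ∧ r ∈ Lo G t (st π.tail) ∧ ∃ d ∈ D, G.Adj r d}

open Classical in
/-- the next node of the block `D` -/
noncomputable def nx [Nonempty V] (G : SimpleGraph V) (t : ℕ) (ν : V → ℕ) (π : List V)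
    (D : Set V) : V :=
  if (Sds G π D).Nonempty then Classical.epsilon (fun y => y ∈ Sds G π D)
  else Classical.epsilon (fun r => r ∈ Cds G t π D ∧ ∀ r' ∈ Cds G t π D, r' ≠ r → cn G ν π r r')

/-- the next node for `x` after the path `π` -/
noncomputable def nxx [Nonempty V] (G : SimpleGraph V) (t : ℕ) (ν : V → ℕ) (π : List V)
    (x : V) : V := nx G t ν π (cm G (Lo G t (st π)) x)

/-- `π` is a path of `x`. -/
inductive Pth [Nonempty V] (G : SimpleGraph V) (t : ℕ) (ν : V → ℕ) (x : V) : List V → Prop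
  | nil : Pth G t ν x []
  | cons (π : List V) : Pth G t ν x π → x ∈ Lo G t (st π) → Pth G t ν x (nxx G t ν π x :: π)

/-- `v` is the seed at the end of the path `π`. -/
def Sd [Nonempty V] (G : SimpleGraph V) (t : ℕ) (ν : V → ℕ) (v : V) (π : List V) : Prop :=
  Pth G t ν v π ∧ v ∈ Lo G t (st π) ∧ v = nxx G t ν π v

/-- `v` is resolved by the path `π`. -/
def Re [Nonempty V] (G : SimpleGraph V) (t : ℕ) (ν : V → ℕ) (v : V) (π : List V) : Prop :=
  Pth G t ν v π ∧ v ∉ π ∧ atl G (st π) t v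

/-- `v` is placed at the end of the path `π`. -/
def Pl [Nonempty V] (G : SimpleGraph V) (t : ℕ) (ν : V → ℕ) (v : V) (π : List V) : Prop :=
  Sd G t ν v π ∨ Re G t ν v π

/-- the parameters are correct. -/
structure Good [Nonempty V] (G : SimpleGraph V) (t : ℕ) (ν : V → ℕ) (W : PW t → Set V) : Prop where
  sd : ∀ (j : Fin t) (y : V), y ∈ W (.inl (.inl j)) ↔
    ∃ π, Sd G t ν y π ∧ atl G (st π) j y ∧ ¬ atl G (st π) (j + 1) y
  tie : ∀ u v π, Re G t ν u π → Re G t ν v π → (∀ a ∈ π, G.Adj u a ↔ G.Adj v a) →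
    ((∃ i j : Fin t, i < j ∧ u ∈ W (.inl (.inr i)) ∧ v ∈ W (.inl (.inr j))) ↔ ν u < ν v)
  arc : ∀ y h π, Pl G t ν y (h :: π) → ∃ j, y ∈ W (.inr (.inr j)) ∧ h ∈ W (.inr (.inl j))
  noarc : ∀ y z π, Pl G t ν z π → y ∈ π → G.Adj y z →
    ¬ ∃ j, y ∈ W (.inr (.inr j)) ∧ z ∈ W (.inr (.inl j))

/-- the order given by the paths -/
def leP [Nonempty V] (G : SimpleGraph V) (t : ℕ) (ν : V → ℕ) (u w : V) : Prop :=
  (∃ π, Sd G t ν u π ∧ w ∈ cm G (Lo G t (st π)) u) ∨
  (∃ h π, Re G t ν u (h :: π) ∧ w ∈ cm G (Lo G t (st π)) u ∧ w ∉ h :: π ∧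
    (u = w ∨ (atl G (st (h :: π)) t w → cn G ν (h :: π) u w)))

end Pool.MP_33c730_lc.Ws
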