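/-
MP_33c730_lc (helper20): graphs which are interdefinable with graphs without `K_{t,t}`.
Definitions only.
-/
import Pool.Agent.Lib.MP_33c730_lc.Ws.WDefs

set_option autoImplicit false

namespace Pool.MP_33c730_lc.Ws

variable {C D V : Type}

/-- The first-order formula does not use the order. -/
def NoLt : {α : Type} → FO C α → Prop
  | _, .eq _ _ => True
  | _, .adj _ _ => True
  | _, .lt _ _ => False
  | _, .col _ _ => True
  | _, .neg f => NoLt f
  | _, .and f g => NoLt f ∧ NoLt g
  | _, .ex f => NoLt f

/-- The coloured graph on `V × Fin k` whose edges are defined in `G` by the MSO formulas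
`η i j (x, y, S)`: distinct elements `(x, i)`, `(y, j)` are adjacent if `η i j (x, y, S)` or
`η j i (y, x, S)` holds. Its colours: the colours of `G`, membership in the sets `S d`, and the
index of the copy. -/
def Interp {k : ℕ} (η : Fin k → Fin k → MSO C (Fin 2) D) (G : CG C V) (S : D → Set V) :
    CG (C ⊕ (D ⊕ Fin k)) (V × Fin k) where
  gr :=
    { Adj := fun p q => p ≠ q ∧
        ((η p.2 q.2).Sat G ![p.1, q.1] S ∨ (η q.2 p.2).Sat G ![q.1, p.1] S)
      symm := ⟨fun _ _ h => ⟨h.1.symm, h.2.symm⟩⟩
      loopless := ⟨fun _ h => h.1 rfl⟩ }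
  col := Sum.elim (fun c p => G.col c p.1) (Sum.elim (fun d p => p.1 ∈ S d) (fun i p => p.2 = i))

/-- For suitable sets `S` the graph defined in `G` by the MSO formulas `η` has no subgraph `K_{t,t}`
and the adjacency of `G` is defined in it by the first-order formula `θ` (on the copy with index
`0`). -/
def Spars (t : ℕ) {k : ℕ} (η : Fin (k + 1) → Fin (k + 1) → MSO C (Fin 2) D)
    (θ : FO (C ⊕ (D ⊕ Fin (k + 1))) (Fin 2)) (G : CG C V) : Prop :=
  ∃ S : D → Set V, Ktt t (Interp η G S).gr ∧
    ∀ x y, G.gr.Adj x y ↔ θ.Sat (Interp η G S) (fun _ _ => False) ![(x, 0), (y, 0)]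

/-- A class of finite coloured graphs is sparsifiable: its members are interdefinable, uniformly,
with graphs without `K_{t,t}` (MSO formulas in one direction, first-order formulas in the
other). -/
def Sparsifiable (C : Type) (P : ∀ V : Type, CG C V → Prop) : Prop :=
  ∃ (D : Type) (_ : Finite D) (k t : ℕ) (η : Fin (k + 1) → Fin (k + 1) → MSO C (Fin 2) D)
    (θ : FO (C ⊕ (D ⊕ Fin (k + 1))) (Fin 2)), NoLt θ ∧
    ∀ (V : Type) [Finite V] (G : CG C V), P V G → Spars t η θ G

/-- `G` arises from a graph `H` without `K_{t,t}` by a flip: the vertices are partitioned into `k`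
classes and the adjacency is complemented between some pairs of classes (and inside some
classes). -/
def FlipKtt (k t : ℕ) (G : SimpleGraph V) : Prop :=
  ∃ (c : V → Fin k) (F : Fin k → Fin k → Prop) (H : SimpleGraph V), Ktt t H ∧
    (∀ i j, F i j → F j i) ∧
    ∀ x y, G.Adj x y ↔ (x ≠ y ∧ (H.Adj x y ↔ ¬ F (c x) (c y)))

end Pool.MP_33c730_lc.Ws
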