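import Pool.Agent.Lib.MP_33c730_lc.Ws.WDefs

set_option autoImplicit false

namespace Pool.MP_33c730_lc.Ws

variable {V : Type} {G : SimpleGraph V} {t : ℕ}

/-! ### WBase: counting neighbours, components, traces -/

theorem atl_mono {Q Q' : Set V} (h : Q ⊆ Q') {j : ℕ} {v : V} (ha : atl G Q j v) :
    atl G Q' j v := by
  obtain ⟨f, hf, hf'⟩ := ha
  exact ⟨f, hf, fun i => ⟨h (hf' i).1, (hf' i).2⟩⟩

theorem atl_le {Q : Set V} {j k : ℕ} (h : j ≤ k) {v : V} (ha : atl G Q k v) : atl G Q j v := by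
  obtain ⟨f, hf, hf'⟩ := ha
  exact ⟨fun i => f (Fin.castLE h i), fun a b hab => by simpa using hf hab,
    fun i => hf' (Fin.castLE h i)⟩

theorem atl_zero {Q : Set V} {v : V} : atl G Q 0 v :=
  ⟨fun i => i.elim0, fun a => a.elim0, fun i => i.elim0⟩

theorem atl_iff [Finite V] {Q : Set V} {j : ℕ} {v : V} :
    atl G Q j v ↔ j ≤ {a | a ∈ Q ∧ G.Adj v a}.ncard := by
  classical
  have := Fintype.ofFinite V
  constructor
  · rintro ⟨f, hf, hf'⟩
    have h1 : (Set.range f).ncard = j := by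
      rw [← Set.image_univ, Set.ncard_image_of_injective _ hf, Set.ncard_univ, Nat.card_fin]
    rw [← h1]
    refine Set.ncard_le_ncard ?_ (Set.toFinite _)
    rintro _ ⟨i, rfl⟩
    exact hf' i
  · intro h
    obtain ⟨s, hs, hc⟩ := Set.exists_subset_card_eq h
    have hc' : Nat.card s = j := by rw [← hc]; rfl
    let e := (Finite.equivFinOfCardEq hc').symm
    exact ⟨fun i => (e i : V), fun a b hab => e.injective (Subtype.ext hab),
      fun i => hs (e i).2⟩

theorem st_nil : st ([] : List V) = ∅ := by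
  ext a
  simp [st]

theorem st_cons (h : V) (π : List V) : st (h :: π) = insert h (st π) := by
  ext a
  simp [st]

theorem mem_st {a : V} {π : List V} : a ∈ st π ↔ a ∈ π := Iff.rfl

theorem st_mono {π ρ : List V} (h : π <:+ ρ) : st π ⊆ st ρ := fun _ ha => h.subset ha

theorem st_diff {h : V} {π : List V} (hn : h ∉ π) : st (h :: π) \ {h} = st π := by
  ext a
  simp only [Set.mem_diff, Set.mem_singleton_iff, mem_st, List.mem_cons]
  constructor
  · rintro ⟨h1 | h1, h2⟩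
    · exact absurd h1 h2
    · exact h1
  · intro h1
    refine ⟨Or.inr h1, ?_⟩
    rintro rfl
    exact hn h1

theorem atl_ins [Finite V] {Q : Set V} {h v : V} (hh : h ∉ Q) {j : ℕ} :
    atl G (insert h Q) (j + 1) v ↔ (G.Adj v h ∧ atl G Q j v) ∨ atl G Q (j + 1) v := by
  rw [atl_iff, atl_iff, atl_iff]
  by_cases hv : G.Adj v h
  · have h1 : {a | a ∈ insert h Q ∧ G.Adj v a} = insert h {a | a ∈ Q ∧ G.Adj v a} := by
      ext a
      simp only [Set.mem_setOf_eq, Set.mem_insert_iff]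
      constructor
      · rintro ⟨h1 | h1, h2⟩
        · exact Or.inl h1
        · exact Or.inr ⟨h1, h2⟩
      · rintro (h1 | h1)
        · rw [h1]
          exact ⟨Or.inl rfl, hv⟩
        · exact ⟨Or.inr h1.1, h1.2⟩
    rw [h1, Set.ncard_insert_of_notMem (fun h2 => hh h2.1) (Set.toFinite _)]
    constructor
    · intro h2
      exact Or.inl ⟨hv, by omega⟩
    · rintro (h2 | h2) <;> omega
  · have h1 : {a | a ∈ insert h Q ∧ G.Adj v a} = {a | a ∈ Q ∧ G.Adj v a} := by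
      ext a
      simp only [Set.mem_setOf_eq, Set.mem_insert_iff]
      constructor
      · rintro ⟨h1 | h1, h2⟩
        · rw [h1] at h2
          exact absurd h2 hv
        · exact ⟨h1, h2⟩
      · intro h1
        exact ⟨Or.inr h1.1, h1.2⟩
    rw [h1]
    tauto

theorem Lo_anti {Q Q' : Set V} (h : Q ⊆ Q') : Lo G t Q' ⊆ Lo G t Q :=
  fun _ hv => ⟨fun hq => hv.1 (h hq), fun ha => hv.2 (atl_mono h ha)⟩

theorem cm_self {X : Set V} {x : V} : x ∈ cm G X x := fun _ h _ => h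

theorem cm_sub {X : Set V} {x : V} (hx : x ∈ X) : cm G X x ⊆ X :=
  fun _ hz => hz X hx (fun _ _ _ h _ => h)

theorem cm_step {X : Set V} {x u w : V} (hu : u ∈ cm G X x) (hw : w ∈ X) (h : G.Adj u w) :
    w ∈ cm G X x := fun Y hY hs => hs u w (hu Y hY hs) hw h

theorem cm_mono {X X' : Set V} {x : V} (h : X ⊆ X') : cm G X x ⊆ cm G X' x :=
  fun _ hz Y hY hs => hz Y hY (fun u w hu hw ha => hs u w hu (h hw) ha)

theorem cm_trans {X : Set V} {x y z : V} (h : y ∈ cm G X x) (h' : z ∈ cm G X y) :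
    z ∈ cm G X x := h' (cm G X x) h (fun _ _ hu hw ha => cm_step hu hw ha)

theorem cm_symm {X : Set V} {x y : V} (hx : x ∈ X) (h : y ∈ cm G X x) : x ∈ cm G X y := by
  refine (h {z | z ∈ X ∧ x ∈ cm G X z} ⟨hx, cm_self⟩ ?_).2
  rintro u w ⟨hu, hu'⟩ hw ha
  exact ⟨hw, cm_trans (cm_step cm_self hu ha.symm) hu'⟩

theorem cm_eq {X : Set V} {x y : V} (hx : x ∈ X) (h : y ∈ cm G X x) : cm G X y = cm G X x := by
  ext z
  exact ⟨fun hz => cm_trans h hz, fun hz => cm_trans (cm_symm hx h) hz⟩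

/-- a component is connected: an edge leaves every proper part. -/
theorem cm_edge {X A : Set V} {x z : V} (hx : x ∈ X) (hxA : x ∈ A) (hz : z ∈ cm G X x)
    (hzA : z ∉ A) : ∃ u w, u ∈ cm G X x ∧ u ∈ A ∧ w ∈ cm G X x ∧ w ∉ A ∧ G.Adj u w := by
  by_contra hc
  push Not at hc
  refine hzA (hz {y | y ∈ cm G X x ∧ y ∈ A} ⟨cm_self, hxA⟩ ?_).2
  rintro u w ⟨hu, hu'⟩ hw ha
  have hw' := cm_step hu hw ha
  refine ⟨hw', ?_⟩
  by_contra hwA
  exact hc u w hu hu' hw' hwA ha

theorem tr_eq {π : List V} {u v : V} :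
    tr G π u = tr G π v ↔ ∀ a ∈ π, (G.Adj u a ↔ G.Adj v a) := by
  induction π with
  | nil => simp [tr]
  | cons h π ih =>
    simp only [tr, List.mem_cons, forall_eq_or_imp]
    rw [← ih]
    by_cases h1 : G.Adj u h <;> by_cases h2 : G.Adj v h <;> simp [h1, h2] <;> omega

theorem tr_lt {π : List V} {u v : V} :
    tr G π u < tr G π v ↔ ∃ a B, (a :: B) <:+ π ∧ G.Adj u a ∧ ¬ G.Adj v a ∧
      ∀ b ∈ B, (G.Adj u b ↔ G.Adj v b) := by
  induction π with
  | nil =>
    simp only [tr, lt_irrefl, false_iff]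
    rintro ⟨a, B, h, -⟩
    simp at h
  | cons h π ih =>
    have key : tr G (h :: π) u < tr G (h :: π) v ↔ tr G π u < tr G π v ∨
        (tr G π u = tr G π v ∧ G.Adj u h ∧ ¬ G.Adj v h) := by
      simp only [tr]
      by_cases h1 : G.Adj u h <;> by_cases h2 : G.Adj v h <;> simp [h1, h2] <;> omega
    rw [key, ih, tr_eq]
    constructor
    · rintro (⟨a, B, h1, h2⟩ | ⟨h1, h2, h3⟩)
      · exact ⟨a, B, h1.trans (List.suffix_cons h π), h2⟩
      · exact ⟨h, π, List.suffix_rfl, h2, h3, h1⟩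
    · rintro ⟨a, B, h1, h2, h3, h4⟩
      rcases List.suffix_cons_iff.1 h1 with h5 | h5
      · obtain ⟨rfl, rfl⟩ := List.cons_eq_cons.1 h5
        exact Or.inr ⟨h4, h2, h3⟩
      · exact Or.inl ⟨a, B, h5, h2, h3, h4⟩

end Pool.MP_33c730_lc.Ws
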