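import Pool.Agent.Lib.MP_33c730_lc.Ws.WDefs
import Pool.Agent.Lib.MP_33c730_lc.DefApi

set_option autoImplicit false

namespace Pool.MP_33c730_lc.Ws

/-! ### WDef: the coded order is MSO definable -/

/-- definable sets -/
def DS (C α β : Type) (Z : ∀ {V : Type}, CG C V → (α → V) → (β → Set V) → Set V) : Prop :=
  Def C (Option α) β fun G v S => v none ∈ Z G (fun i => v (some i)) S

section
variable {C α β α' β' : Type}
  {Q : ∀ {V : Type}, CG C V → (α → V) → (β → Set V) → Set V}

theorem DS.mem' (h : DS C α β Q) (f : α → α') (g : β → β') (x : α') :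
    Def C α' β' fun G v S => v x ∈ Q G (fun i => v (f i)) (fun X => S (g X)) :=
  Def.congr (Def.rename h (fun o : Option α => o.elim x f) g) (fun _ _ _ => Iff.rfl)

theorem DS.mem (h : DS C α β Q) (x : α) : Def C α β fun G v S => v x ∈ Q G v S :=
  DS.mem' h (fun i => i) (fun i => i) x

theorem DS.ren (h : DS C α β Q) (f : α → α') (g : β → β') :
    DS C α' β' fun G v S => Q G (fun i => v (f i)) (fun X => S (g X)) :=
  DS.mem' h (fun i => some (f i)) g none

theorem DS.var (X : β) : DS C α β fun _ _ S => S X := Def.mem none X

theorem DS.diff (h : DS C α β Q) (l : α) : DS C α β fun G v S => Q G v S \ {v l} :=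
  Def.congr (Def.and (DS.mem' h some (fun i => i) none) (Def.not (Def.eq none (some l))))
    (fun _ _ _ => Iff.rfl)

theorem def_atl (h : DS C α β Q) (j : ℕ) (x : α) :
    Def C α β fun G v S => atl G.gr (Q G v S) j (v x) :=
  Def.congr (Def.exTup (ι := Fin j) (Def.and
    (Def.allFin fun i : Fin j => Def.allFin fun i' : Fin j =>
      Def.imp (Def.eq (.inr i) (.inr i')) (Def.const (i = i')))
    (Def.allFin fun i : Fin j => Def.and (DS.mem' h Sum.inl (fun i => i) (.inr i))
      (Def.adj (.inl x) (.inr i)))))
    (fun _ _ _ => Iff.rfl)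

theorem DS.lo (h : DS C α β Q) (t : ℕ) : DS C α β fun G v S => Lo G.gr t (Q G v S) :=
  Def.congr (Def.and (Def.not (DS.mem' h some (fun i => i) none))
    (Def.not (def_atl (DS.ren h some (fun i => i)) t none)))
    (fun _ _ _ => Iff.rfl)

theorem DS.cm (h : DS C α β Q) (x : α) : DS C α β fun G v S => cm G.gr (Q G v S) (v x) :=
  Def.congr (Def.allS (Def.imp (Def.mem (some x) none) (Def.imp
    (Def.all (Def.all (Def.imp (Def.mem (some none) none)
      (Def.imp (DS.mem' h (fun i => some (some (some i))) some none)
        (Def.imp (Def.adj (some none) none) (Def.mem none none))))))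
    (Def.mem none none))))
    (fun _ _ _ => Iff.rfl)

variable {t : ℕ}

theorem def_ar (h : DS C α β Q) (W : PW t → β) (y z : α) :
    Def C α β fun G v S => ar G.gr (fun p => S (W p)) (Q G v S) (v y) (v z) :=
  Def.congr (Def.and (DS.mem h y) (Def.and (DS.mem h z) (Def.and (Def.adj y z)
    (Def.exFin fun j : Fin (t + 1) => Def.and (Def.mem y (W (.inr (.inr j))))
      (Def.mem z (W (.inr (.inl j))))))))
    (fun _ _ _ => Iff.rfl)

theorem def_ro (h : DS C α β Q) (W : PW t → β) (a y : α) :
    Def C α β fun G v S => ro G.gr (fun p => S (W p)) (Q G v S) (v a) (v y) :=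
  Def.congr (Def.allS (Def.imp (Def.mem y none) (Def.imp
    (Def.all (Def.all (Def.imp (Def.mem (some none) none)
      (Def.imp (def_ar (DS.ren h (fun i => some (some i)) some) (fun p => some (W p))
        (some none) none) (Def.mem none none)))))
    (Def.mem a none))))
    (fun _ _ _ => Iff.rfl)

theorem DS.ini (h : DS C α β Q) (W : PW t → β) (y : α) :
    DS C α β fun G v S => ini G.gr (fun p => S (W p)) (Q G v S) (v y) :=
  Def.congr (Def.and (DS.mem' h some (fun i => i) none) (Def.and
    (Def.not (Def.eq none (some y)))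
    (def_ro (DS.ren h some (fun i => i)) W none (some y))))
    (fun _ _ _ => Iff.rfl)

theorem def_lst (h : DS C α β Q) (W : PW t → β) (l : α) :
    Def C α β fun G v S => lst G.gr (fun p => S (W p)) (Q G v S) (v l) :=
  Def.congr (Def.and (DS.mem h l) (Def.all (Def.imp (DS.mem' h some (fun i => i) none)
    (def_ro (DS.ren h some (fun i => i)) W none (some l)))))
    (fun _ _ _ => Iff.rfl)

theorem def_sdr (h : DS C α β Q) (W : PW t → β) (x y : α) :
    Def C α β fun G v S => sdr G.gr (fun p => S (W p)) (Q G v S) (v x) (v y) :=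
  Def.congr (Def.and (DS.mem (DS.cm (DS.lo h t) x) y)
    (Def.exFin fun j : Fin t => Def.and (Def.mem y (W (.inl (.inl j)))) (def_atl h j y)))
    (fun _ _ _ => Iff.rfl)

theorem def_can (h : DS C α β Q) (W : PW t → β) (x y : α) :
    Def C α β fun G v S => can G.gr (fun p => S (W p)) (Q G v S) (v x) (v y) :=
  Def.congr (Def.or
    (Def.ex (Def.and (DS.mem' h some (fun i => i) none) (Def.and (Def.adj (some x) none)
      (Def.and (Def.not (Def.adj (some y) none))
        (Def.all (Def.imp (DS.mem' h (fun i => some (some i)) (fun i => i) none)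
          (Def.imp (Def.not (Def.eq none (some none)))
            (Def.imp (def_ro (DS.ren h (fun i => some (some i)) (fun i => i)) W none (some none))
              (Def.iff (Def.adj (some (some x)) none) (Def.adj (some (some y)) none))))))))))
    (Def.and (Def.all (Def.imp (DS.mem' h some (fun i => i) none)
      (Def.iff (Def.adj (some x) none) (Def.adj (some y) none))))
      (Def.exFin fun i : Fin t => Def.exFin fun j : Fin t => Def.and (Def.const (i < j))
        (Def.and (Def.mem x (W (.inl (.inr i)))) (Def.mem y (W (.inl (.inr j))))))))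
    (fun _ _ _ => Iff.rfl)

theorem def_cnd (h : DS C α β Q) (W : PW t → β) (x r : α) :
    Def C α β fun G v S => cnd G.gr (fun p => S (W p)) (Q G v S) (v x) (v r) :=
  Def.congr (Def.and (Def.not (DS.mem h r)) (Def.and (def_atl h t r) (Def.and
    (Def.ex (Def.and (def_lst (DS.ren h some (fun i => i)) W none)
      (DS.mem (DS.lo (DS.diff (DS.ren h some (fun i => i)) none) t) (some r))))
    (Def.ex (Def.and (DS.mem' (DS.cm (DS.lo h t) x) some (fun i => i) none)
      (Def.adj (some r) none))))))
    (fun _ _ _ => Iff.rfl)

theorem def_rul (h : DS C α β Q) (W : PW t → β) (y x : α) :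
    Def C α β fun G v S => rul G.gr (fun p => S (W p)) (Q G v S) (v y) (v x) :=
  Def.congr (Def.and (DS.mem (DS.lo h t) x) (Def.or (def_sdr h W x y) (Def.and
    (Def.all (Def.not (def_sdr (DS.ren h some (fun i => i)) W (some x) none)))
    (Def.and (def_cnd h W x y) (Def.all (Def.imp
      (def_cnd (DS.ren h some (fun i => i)) W (some x) none)
      (Def.imp (Def.not (Def.eq none (some y)))
        (def_can (DS.ren h some (fun i => i)) W (some y) none))))))))
    (fun _ _ _ => Iff.rfl)

theorem def_vld (h : DS C α β Q) (W : PW t → β) (x : α) :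
    Def C α β fun G v S => vld G.gr (fun p => S (W p)) (Q G v S) (v x) :=
  Def.congr (Def.and
    (Def.all (Def.imp (DS.mem' h some (fun i => i) none) (Def.all (Def.imp
      (DS.mem' h (fun i => some (some i)) (fun i => i) none)
      (Def.or (def_ro (DS.ren h (fun i => some (some i)) (fun i => i)) W (some none) none)
        (def_ro (DS.ren h (fun i => some (some i)) (fun i => i)) W none (some none)))))))
    (Def.and
    (Def.all (Def.imp (DS.mem' h some (fun i => i) none) (Def.all (Def.imp
      (DS.mem' h (fun i => some (some i)) (fun i => i) none)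
      (Def.imp (def_ro (DS.ren h (fun i => some (some i)) (fun i => i)) W (some none) none)
        (Def.imp (def_ro (DS.ren h (fun i => some (some i)) (fun i => i)) W none (some none))
          (Def.eq (some none) none)))))))
    (Def.all (Def.imp (DS.mem' h some (fun i => i) none)
      (def_rul (DS.ini (DS.ren h some (fun i => i)) W none) W none (some x))))))
    (fun _ _ _ => Iff.rfl)
end

theorem def_leW {C α : Type} {t : ℕ} (i j : α) :
    Def C α (PW t) fun G v S => leW G.gr S (v i) (v j) := by
  have hQ : DS C α (Option (PW t)) fun _ _ S => S none := DS.var none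
  refine Def.congr (Def.exS (Def.and (def_vld hQ some i) (Def.or
    (Def.and (DS.mem (DS.lo hQ t) i) (Def.and (def_sdr hQ some i i)
      (DS.mem (DS.cm (DS.lo hQ t) i) j)))
    (Def.and (Def.not (DS.mem hQ i)) (Def.and (def_atl hQ t i) (Def.and
      (Def.not (DS.mem hQ j)) (Def.ex (Def.and
        (def_lst (DS.ren hQ some (fun i => i)) some none) (Def.and
        (DS.mem (DS.cm (DS.lo (DS.diff (DS.ren hQ some (fun i => i)) none) t) (some i)) (some j))
        (Def.or (Def.eq (some i) (some j)) (Def.imp
          (def_atl (DS.ren hQ some (fun i => i)) t (some j))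
          (def_can (DS.ren hQ some (fun i => i)) some (some i) (some j)))))))))))))
    ?_
  intro V G v S
  exact Iff.rfl

end Pool.MP_33c730_lc.Ws
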