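import Pool.Agent.Lib.MP_33c730_lc.Ws.Sp

set_option autoImplicit false

namespace Pool.MP_33c730_lc.Ws

/-! ### SpFlip: flips -/

/-- definable by a first-order formula without the order -/
def DefF (C α : Type) (R : ∀ {V : Type}, CG C V → (α → V) → Prop) : Prop :=
  ∃ θ : FO C α, NoLt θ ∧ ∀ (V : Type) (G : CG C V) (r : V → V → Prop) (v : α → V),
    θ.Sat G r v ↔ R G v

section
variable {C α : Type} {R R' : ∀ {V : Type}, CG C V → (α → V) → Prop}

theorem DefF.congr (h : DefF C α R)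
    (hR : ∀ {V : Type} (G : CG C V) (v : α → V), R G v ↔ R' G v) : DefF C α R' := by
  obtain ⟨θ, h1, h2⟩ := h
  exact ⟨θ, h1, fun V G r v => (h2 V G r v).trans (hR G v)⟩

theorem DefF.not (h : DefF C α R) : DefF C α fun G v => ¬ R G v := by
  obtain ⟨θ, h1, h2⟩ := h
  exact ⟨.neg θ, h1, fun V G r v => not_congr (h2 V G r v)⟩

theorem DefF.and (h : DefF C α R) (h' : DefF C α R') : DefF C α fun G v => R G v ∧ R' G v := by
  obtain ⟨θ, h1, h2⟩ := h
  obtain ⟨θ', h1', h2'⟩ := h'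
  exact ⟨.and θ θ', ⟨h1, h1'⟩, fun V G r v => and_congr (h2 V G r v) (h2' V G r v)⟩

theorem DefF.or (h : DefF C α R) (h' : DefF C α R') : DefF C α fun G v => R G v ∨ R' G v := by
  refine DefF.congr (DefF.not (DefF.and (DefF.not h) (DefF.not h'))) ?_
  intro V G v
  tauto

theorem DefF.iff (h : DefF C α R) (h' : DefF C α R') :
    DefF C α fun G v => (R G v ↔ R' G v) := by
  refine DefF.congr (DefF.and (DefF.or (DefF.not h) h') (DefF.or (DefF.not h') h)) ?_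
  intro V G v
  tauto

theorem DefF.eq (i j : α) : DefF C α fun _ v => v i = v j :=
  ⟨.eq i j, trivial, fun _ _ _ _ => Iff.rfl⟩

theorem DefF.adj (i j : α) : DefF C α fun G v => G.gr.Adj (v i) (v j) :=
  ⟨.adj i j, trivial, fun _ _ _ _ => Iff.rfl⟩

theorem DefF.col (c : C) (i : α) : DefF C α fun G v => G.col c (v i) :=
  ⟨.col c i, trivial, fun _ _ _ _ => Iff.rfl⟩

theorem DefF.exList {ι : Type} {R : ι → ∀ {V : Type}, CG C V → (α → V) → Prop} (i0 : α)
    (h : ∀ i, DefF C α (R i)) (l : List ι) : DefF C α fun G v => ∃ i ∈ l, R i G v := by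
  induction l with
  | nil =>
    refine DefF.congr (DefF.not (DefF.eq i0 i0)) ?_
    intro V G v
    simp
  | cons a l ih =>
    refine DefF.congr (DefF.or (h a) ih) ?_
    intro V G v
    simp

theorem DefF.exFin {ι : Type} [Finite ι] {R : ι → ∀ {V : Type}, CG C V → (α → V) → Prop}
    (i0 : α) (h : ∀ i, DefF C α (R i)) : DefF C α fun G v => ∃ i, R i G v := by
  obtain ⟨_⟩ := nonempty_fintype ι
  refine DefF.congr (DefF.exList i0 h Finset.univ.toList) ?_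
  intro V G v
  simp
end

/-- names of the sets describing a flip -/
abbrev FD (k : ℕ) : Type := Fin k ⊕ (Fin k × Fin k)

theorem flip_sparsifiable (C : Type) (k t : ℕ) :
    Sparsifiable C (fun _ G => FlipKtt k t G.gr) := by
  have h1 : Def C (Fin 2) (FD k) fun {V} G v (S : FD k → Set V) => (G.gr.Adj (v 0) (v 1) ↔
      ¬ ∃ p : Fin k × Fin k, v 0 ∈ S (Sum.inl p.1) ∧ v 1 ∈ S (Sum.inl p.2) ∧
        v 0 ∈ S (Sum.inr p)) :=
    Def.iff (Def.adj 0 1) (Def.not (Def.exFin fun p => Def.and (Def.mem 0 (Sum.inl p.1))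
      (Def.and (Def.mem 1 (Sum.inl p.2)) (Def.mem 0 (Sum.inr p)))))
  obtain ⟨η, hη⟩ := h1
  have h2 : DefF (C ⊕ (FD k ⊕ Fin 1)) (Fin 2) fun G v => (¬ v 0 = v 1 ∧
      (G.gr.Adj (v 0) (v 1) ↔ ¬ ∃ p : Fin k × Fin k, G.col (.inr (.inl (.inl p.1))) (v 0) ∧
        (G.col (.inr (.inl (.inl p.2))) (v 1) ∧ G.col (.inr (.inl (.inr p))) (v 0)))) :=
    DefF.and (DefF.not (DefF.eq 0 1)) (DefF.iff (DefF.adj 0 1) (DefF.not (DefF.exFin 0 fun p =>
      DefF.and (DefF.col _ 0) (DefF.and (DefF.col _ 1) (DefF.col _ 0)))))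
  obtain ⟨θ, hθ, hθ'⟩ := h2
  refine ⟨FD k, inferInstance, 0, t, fun _ _ => η, θ, hθ, ?_⟩
  rintro V _ G ⟨c, F, H, hH, hF, hG⟩
  let S : FD k → Set V := Sum.elim (fun i => {x | c x = i}) (fun p => {_x | F p.1 p.2})
  have h3 : ∀ x y, (∃ p : Fin k × Fin k, x ∈ S (.inl p.1) ∧ y ∈ S (.inl p.2) ∧ x ∈ S (.inr p)) ↔
      F (c x) (c y) := by
    intro x y
    constructor
    · rintro ⟨p, h4, h5, h6⟩
      have h4' : c x = p.1 := h4
      have h5' : c y = p.2 := h5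
      rw [h4', h5']
      exact h6
    · intro h
      exact ⟨(c x, c y), rfl, rfl, h⟩
  have h4 : ∀ p q : V × Fin 1, (Interp (fun _ _ => η) G S).gr.Adj p q ↔ H.Adj p.1 q.1 := by
    intro p q
    change (p ≠ q ∧ (η.Sat G ![p.1, q.1] S ∨ η.Sat G ![q.1, p.1] S)) ↔ _
    rw [hη, hη]
    simp only [Matrix.cons_val_zero, Matrix.cons_val_one]
    rw [h3, h3, hG, hG]
    have h5 : p ≠ q ↔ p.1 ≠ q.1 := by
      rw [not_iff_not]
      exact ⟨fun h => congrArg Prod.fst h, fun h => Prod.ext h (Subsingleton.elim _ _)⟩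
    rw [h5]
    have h6 : F (c q.1) (c p.1) ↔ F (c p.1) (c q.1) := ⟨fun h => hF _ _ h, fun h => hF _ _ h⟩
    have h7 : H.Adj q.1 p.1 ↔ H.Adj p.1 q.1 := H.adj_comm _ _
    have h8 : q.1 ≠ p.1 ↔ p.1 ≠ q.1 := ne_comm
    rw [h6, h7, h8]
    by_cases h9 : p.1 = q.1
    · rw [h9]
      simp
    · have h10 : p.1 ≠ q.1 := h9
      by_cases h11 : F (c p.1) (c q.1) <;> by_cases h12 : H.Adj p.1 q.1 <;> simp [h10, h11, h12]
  refine ⟨S, ?_, ?_⟩
  · rintro ⟨f, g, hf, hg, hfg⟩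
    refine hH ⟨fun i => (f i).1, fun i => (g i).1, ?_, ?_, fun i j => (h4 _ _).1 (hfg i j)⟩
    · intro a b hab
      exact hf (Prod.ext hab (Subsingleton.elim (α := Fin 1) _ _))
    · intro a b hab
      exact hg (Prod.ext hab (Subsingleton.elim (α := Fin 1) _ _))
  · intro x y
    rw [hθ']
    have h5 := h3 x y
    change _ ↔ (¬ (x, (0 : Fin 1)) = (y, 0) ∧
      ((Interp (fun _ _ => η) G S).gr.Adj (x, 0) (y, 0) ↔
        ¬ ∃ p : Fin k × Fin k, x ∈ S (.inl p.1) ∧ y ∈ S (.inl p.2) ∧ x ∈ S (.inr p)))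
    rw [h4, h3, hG]
    refine and_congr (not_congr ?_) Iff.rfl
    exact ⟨fun h => congrArg (fun z => (z, 0)) h, fun h => congrArg Prod.fst h⟩

/-- **Order-invariant first-order logic is contained in MSO on every sparsifiable class.** -/
theorem main_sparsifiable (C : Type) [Finite C] (φ : FO C Empty) (hφ : OrderInvariant φ)
    (P : ∀ V : Type, CG C V → Prop) (hP : Sparsifiable C P) :
    ∃ ψ : MSO C Empty Empty, ∀ (V : Type) [Finite V] (G : CG C V), P V G →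
      ∀ lt : V → V → Prop, IsStrictTotalOrder V lt →
        (ψ.Sat G Empty.elim Empty.elim ↔ φ.Sat G lt Empty.elim) := by
  obtain ⟨D, hD, k, t, η, θ, hθ, h⟩ := hP
  obtain ⟨ψ, hψ⟩ := main_spars t η θ hθ φ hφ
  refine ⟨ψ, fun V _ G hG lt hlt => ?_⟩
  rw [hψ V G lt hlt]
  exact ⟨fun h1 => h1.2, fun h1 => ⟨h V G hG, h1⟩⟩

end Pool.MP_33c730_lc.Ws
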