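/-
MP_33c730_lc (helper20), third part: the engine for an arbitrary MSO definable forest order.
Definitions only.
-/
import Pool.Agent.Lib.MP_33c730_lc.Dg.Code2
import Pool.Agent.Lib.MP_33c730_lc.DefApi

set_option autoImplicit false

namespace Pool.MP_33c730_lc.Ws

variable {C V : Type}

/-- An MSO definable relation on the vertices, with set parameters named by `P0`. -/
class LRel (C : Type) where
  P0 : Type
  fin : Finite P0
  L : ∀ {V : Type}, CG C V → (P0 → Set V) → V → V → Prop
  dL : ∀ {α : Type} (i j : α), Def C α P0 fun G v S => L G S (v i) (v j)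

/-- names of the set parameters: parameters of the relation, kept vertices and indices for the
levels `0, ..., q`. -/
abbrev ParW (C : Type) [LRel C] (b q : ℕ) : Type :=
  LRel.P0 C ⊕ (Fin (q + 1) ⊕ (Fin (q + 1) × Fin b))

variable [LRel C] {b q : ℕ}

/-- the tree order coded by the parameters -/
def lS (G : CG C V) (S : ParW C b q → Set V) : V → V → Prop :=
  LRel.L G (fun j => S (.inl j))

/-- kept vertices of level `r` -/
def kS (S : ParW C b q → Set V) (r : ℕ) : Set V :=
  {v | ∃ h : r < q + 1, v ∈ S (.inr (.inl ⟨r, h⟩))}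

/-- indices of level `r` -/
noncomputable def jS (S : ParW C b q → Set V) (r : ℕ) : V → ℕ :=
  idx fun i : Fin b => {v | ∃ h : r < q + 1, v ∈ S (.inr (.inr (⟨r, h⟩, i)))}

/-- class numbers of level `r` -/
noncomputable def klS (G : CG C V) (cs : List C) (S : ParW C b q → Set V) (r : ℕ) : V → ℕ :=
  klev G cs (lS G S) (kS S) (jS S) r

/-- the order of level `r` -/
def dS (G : CG C V) (cs : List C) (S : ParW C b q → Set V) (r : ℕ) : V → V → Prop :=
  dlt G.gr (lS G S) (klS G cs S r) (jS S r)

/-- The parameters code a forest order. -/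
def okS (G : CG C V) (S : ParW C b q → Set V) : Prop := Forest G.gr (lS G S)

end Pool.MP_33c730_lc.Ws
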