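import Pool.Agent.Lib.MP_33c730_lc.Ws.DefTp

set_option autoImplicit false

namespace Pool.MP_33c730_lc.Ws

/-! ### DefLev: the levels are definable -/
section
variable {C α : Type} [LRel C] {b q : ℕ}

/-- the order of a level is definable if the class numbers are. -/
theorem def_dS_of (cs : List C) (r : ℕ)
    (hk : ∀ {α : Type} (i j : α), DefP C α (ParW C b q) okS fun G v S =>
      sib (lS G S) (v i) (v j) ∧ klS G cs S r (v i) < klS G cs S r (v j)) (i j : α) :
    DefP C α (ParW C b q) okS fun G v S => dS G cs S r (v i) (v j) := by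
  refine DefP.congr (DefP.or (DefP.and (def_lS i j) (DefP.not (DefP.of (Def.eq i j))))
    (DefP.ex (DefP.ex (DefP.and (def_sib2 (some none) none)
      (DefP.and (def_sib2 none (some none))
      (DefP.and (def_lS (some none) (some (some i)))
        (DefP.and (def_lS none (some (some j)))
          (DefP.or (def_nbLt2 (some none) none) (DefP.and (def_nbEq2 (some none) none)
            (DefP.or (hk (some none) none) (DefP.and (DefP.and (DefP.not (hk (some none) none))
              (DefP.not (hk none (some none)))) (def_jlt r (some none) none)))))))))))) ?_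
  intro V _ G v S _
  refine or_congr Iff.rfl (exists_congr fun c => exists_congr fun c' => ?_)
  change (sib (lS G S) c c' ∧ sib (lS G S) c' c ∧ lS G S c (v i) ∧ lS G S c' (v j) ∧
    (nbLt G.gr (lS G S) c c' ∨ (nbEq G.gr (lS G S) c c' ∧
      ((sib (lS G S) c c' ∧ klS G cs S r c < klS G cs S r c') ∨
        ((¬ (sib (lS G S) c c' ∧ klS G cs S r c < klS G cs S r c') ∧
          ¬ (sib (lS G S) c' c ∧ klS G cs S r c' < klS G cs S r c)) ∧
          jS S r c < jS S r c'))))) ↔
    (sib (lS G S) c c' ∧ lS G S c (v i) ∧ lS G S c' (v j) ∧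
      (nbLt G.gr (lS G S) c c' ∨ (nbEq G.gr (lS G S) c c' ∧
        (klS G cs S r c < klS G cs S r c' ∨ (klS G cs S r c = klS G cs S r c' ∧
          jS S r c < jS S r c')))))
  constructor
  · rintro ⟨h1, h2, h3, h4, h5⟩
    refine ⟨h1, h3, h4, ?_⟩
    rcases h5 with h5 | ⟨h5, ⟨_, h6⟩ | ⟨⟨h6, h7⟩, h8⟩⟩
    · exact Or.inl h5
    · exact Or.inr ⟨h5, Or.inl h6⟩
    · exact Or.inr ⟨h5, Or.inr ⟨le_antisymm (not_lt.1 fun h => h7 ⟨h2, h⟩)
        (not_lt.1 fun h => h6 ⟨h1, h⟩), h8⟩⟩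
  · rintro ⟨h1, h3, h4, h5⟩
    have h2 := sib_symm h1
    refine ⟨h1, h2, h3, h4, ?_⟩
    rcases h5 with h5 | ⟨h5, h6 | ⟨h6, h7⟩⟩
    · exact Or.inl h5
    · exact Or.inr ⟨h5, Or.inl ⟨h1, h6⟩⟩
    · exact Or.inr ⟨h5, Or.inr ⟨⟨fun h => absurd h6 (ne_of_lt h.2),
        fun h => absurd h6.symm (ne_of_lt h.2)⟩, h7⟩⟩

/-- class numbers of siblings -/
theorem def_klLt (cs : List C) (r : ℕ) (i j : α) : DefP C α (ParW C b q) okS fun G v S =>
    sib (lS G S) (v i) (v j) ∧ klS G cs S r (v i) < klS G cs S r (v j) := by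
  induction r generalizing α with
  | zero =>
    refine DefP.congr (DefP.of (Def.const False)) ?_
    intro V _ G v S _
    exact ⟨fun h => h.elim, fun h => lt_irrefl _ h.2⟩
  | succ r ih =>
    have hd : ∀ {α : Type} (i j : α), DefP C α (ParW C b q) okS
        fun G v S => dS G cs S r (v i) (v j) := fun {α} i j => def_dS_of cs r (fun i j => ih i j) i j
    refine DefP.congr (DefP.or (ih i j) (DefP.and (DefP.and (def_sib2 i j) (DefP.and
      (DefP.not (ih i j)) (DefP.not (ih j i)))) (def_tyLt cs r hd i j))) ?_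
    intro V _ G v S _
    have h0 : klS G cs S (r + 1) (v i) < klS G cs S (r + 1) (v j) ↔
        (klS G cs S r (v i) < klS G cs S r (v j) ∨ (klS G cs S r (v i) = klS G cs S r (v j) ∧
          ty G cs (lS G S) (kS S r) (dS G cs S r) r (v i) <
            ty G cs (lS G S) (kS S r) (dS G cs S r) r (v j))) := by
      have h1 := rk_lt (fun c => (toLex (klS G cs S r c,
        ty G cs (lS G S) (kS S r) (dS G cs S r) r c) : ℕ ×ₗ Ty (r + 1))) (v i) (v j)
      rw [Prod.Lex.toLex_lt_toLex] at h1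
      exact h1
    rw [h0]
    constructor
    · rintro (h1 | ⟨⟨h1, h2, h3⟩, _, h4⟩)
      · exact ⟨h1.1, Or.inl h1.2⟩
      · exact ⟨h1, Or.inr ⟨le_antisymm (not_lt.1 fun h => h3 ⟨sib_symm h1, h⟩)
          (not_lt.1 fun h => h2 ⟨h1, h⟩), h4⟩⟩
    · rintro ⟨h1, h2 | ⟨h2, h3⟩⟩
      · exact Or.inl ⟨h1, h2⟩
      · exact Or.inr ⟨⟨h1, fun h => absurd h2 (ne_of_lt h.2),
          fun h => absurd h2.symm (ne_of_lt h.2)⟩, h1, h3⟩

theorem def_klEq (cs : List C) (r : ℕ) (i j : α) : DefP C α (ParW C b q) okS fun G v S =>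
    sib (lS G S) (v i) (v j) ∧ klS G cs S r (v i) = klS G cs S r (v j) := by
  refine DefP.congr (DefP.and (def_sib2 i j) (DefP.and
      (DefP.not (def_klLt cs r i j)) (DefP.not (def_klLt cs r j i)))) ?_
  intro V _ G v S _
  constructor
  · rintro ⟨h1, h2, h3⟩
    exact ⟨h1, le_antisymm (not_lt.1 fun h => h3 ⟨sib_symm h1, h⟩) (not_lt.1 fun h => h2 ⟨h1, h⟩)⟩
  · rintro ⟨h1, h2⟩
    exact ⟨h1, fun h => absurd h2 (ne_of_lt h.2), fun h => absurd h2.symm (ne_of_lt h.2)⟩

theorem def_dS (cs : List C) (r : ℕ) (i j : α) :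
    DefP C α (ParW C b q) okS fun G v S => dS G cs S r (v i) (v j) :=
  def_dS_of cs r (fun i j => def_klLt cs r i j) i j
end

end Pool.MP_33c730_lc.Ws
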