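import Pool.Agent.Lib.MP_33c730_lc.Ws.WPath

set_option autoImplicit false

namespace Pool.MP_33c730_lc.Ws

variable {V : Type} [Finite V] [Nonempty V] {G : SimpleGraph V} {t : ℕ} {ν : V → ℕ}

/-! ### WCol: the parameters exist -/

omit [Nonempty V] in
/-- greedy colouring along a rank function -/
theorem greedy (r : V → ℕ) (F : V → V → Prop) (hr : ∀ z h, F z h → r h < r z)
    (hF : ∀ z, {h | F z h}.ncard ≤ t) : ∃ χ : V → Fin (t + 1), ∀ z h, F z h → χ z ≠ χ h := by
  classical
  have key : ∀ n : ℕ, ∃ χ : V → Fin (t + 1), ∀ z h, r z < n → F z h → χ z ≠ χ h := by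
    intro n
    induction n with
    | zero => exact ⟨fun _ => 0, fun z h h1 => absurd h1 (Nat.not_lt_zero _)⟩
    | succ n ih =>
      obtain ⟨χ, hχ⟩ := ih
      have hex : ∀ z, ∃ c : Fin (t + 1), c ∉ χ '' {h | F z h} := by
        intro z
        by_contra hc
        push Not at hc
        have h1 : χ '' {h | F z h} = Set.univ := Set.eq_univ_of_forall hc
        have h2 : (χ '' {h | F z h}).ncard ≤ t :=
          (Set.ncard_image_le (Set.toFinite _)).trans (hF z)
        rw [h1, Set.ncard_univ, Nat.card_fin] at h2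
        omega
      choose c hc using hex
      refine ⟨fun z => if r z = n then c z else χ z, fun z h h1 h2 => ?_⟩
      have h3 := hr z h h2
      have h4 : r h ≠ n := by omega
      by_cases h5 : r z = n
      · simp only [h5, if_true, h4, if_false]
        intro h6
        exact hc z ⟨h, h2, h6.symm⟩
      · simp only [h5, if_false, h4, if_false]
        exact hχ z h (by omega) h2
  obtain ⟨N, hN⟩ : ∃ N, ∀ z, r z < N := by
    obtain ⟨N, hN⟩ := (Set.finite_range r).bddAbove
    exact ⟨N + 1, fun z => Nat.lt_succ_of_le (hN ⟨z, rfl⟩)⟩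
  obtain ⟨χ, hχ⟩ := key N
  exact ⟨χ, fun z h h1 => hχ z h (hN z) h1⟩

theorem exists_col (ht : 1 ≤ t) (hν : Function.Injective ν) : ∃ χ : V → Fin (t + 1),
    ∀ z π, Pl G t ν z π → ∀ y ∈ π, G.Adj y z → ∀ h B, Pl G t ν y (h :: B) → χ z ≠ χ h := by
  classical
  have hpl : ∀ v : V, ∃ π, Pl G t ν v π := fun v => pl_exists ht hν v
  choose pl hpl using hpl
  obtain ⟨χ, hχ⟩ := greedy (t := t) (fun z => (pl z).length)
    (fun z h => ∃ y, y ∈ pl z ∧ G.Adj y z ∧ ∃ B, Pl G t ν y (h :: B)) (by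
      rintro z h ⟨y, hy, -, B, hB⟩
      obtain ⟨A, B', hAB⟩ := List.append_of_mem hy
      have h1 : (y :: B') <:+ pl z := ⟨A, hAB.symm⟩
      have h2 := pl_node ht hν (pth_suffix h1 (pl_pth (hpl z)))
      have h3 := pl_unique hB h2
      have h4 : (h :: B) <:+ pl z := by
        rw [h3]
        exact (List.suffix_cons y B').trans h1
      have h5 := pl_unique (hpl h) (pl_node ht hν (pth_suffix h4 (pl_pth (hpl z))))
      have h6 := h4.length_le
      rw [List.length_cons] at h6
      change (pl h).length < (pl z).length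
      rw [h5]
      omega) (by
      intro z
      have h1 : ¬ atl G (st (pl z)) (t + 1) z := by
        rcases hpl z with h | h
        · exact fun h1 => h.2.1.2 (atl_le (by omega) h1)
        · cases hp : pl z with
          | nil =>
            rw [hp] at h
            exact absurd h (re_nil ht)
          | cons a B =>
            rw [hp] at h
            exact (re_adj ht hν h).2.2
      rw [atl_iff] at h1
      have h2 : {h | ∃ y, y ∈ pl z ∧ G.Adj y z ∧ ∃ B, Pl G t ν y (h :: B)} ⊆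
          (fun y => (pl y).headD z) '' {a | a ∈ st (pl z) ∧ G.Adj z a} := by
        rintro h ⟨y, hy, ha, B, hB⟩
        refine ⟨y, ⟨hy, ha.symm⟩, ?_⟩
        change (pl y).headD z = h
        rw [pl_unique (hpl y) hB]
        rfl
      have h3 := Set.ncard_le_ncard h2 (Set.toFinite _)
      have h4 := Set.ncard_image_le (f := fun y => (pl y).headD z)
        (s := {a | a ∈ st (pl z) ∧ G.Adj z a}) (Set.toFinite _)
      omega)
  refine ⟨χ, fun z π hz y hy ha h B hB => hχ z h ⟨y, ?_, ha, B, hB⟩⟩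
  rw [pl_unique (hpl z) hz]
  exact hy

/-- the class of `v`: vertices resolved by the same path with the same neighbourhood -/
def cls (G : SimpleGraph V) (t : ℕ) (ν : V → ℕ) (v : V) : Set V :=
  {u | ∃ π, Re G t ν u π ∧ Re G t ν v π ∧ ∀ a ∈ π, (G.Adj u a ↔ G.Adj v a)}

theorem cls_eq {u v : V} {π : List V} (hu : Re G t ν u π) (hv : Re G t ν v π)
    (h : ∀ a ∈ π, (G.Adj u a ↔ G.Adj v a)) : cls G t ν u = cls G t ν v := by
  ext w
  constructor
  · rintro ⟨ρ, h1, h2, h3⟩
    have h4 := pl_unique (Or.inr h2) (Or.inr hu)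
    subst h4
    exact ⟨ρ, h1, hv, fun a ha => (h3 a ha).trans (h a ha)⟩
  · rintro ⟨ρ, h1, h2, h3⟩
    have h4 := pl_unique (Or.inr h2) (Or.inr hv)
    subst h4
    exact ⟨ρ, h1, hu, fun a ha => (h3 a ha).trans (h a ha).symm⟩

theorem cls_card (hK : Ktt t G) {v : V} {π : List V} (hv : Re G t ν v π) :
    (cls G t ν v).ncard < t := by
  by_contra hc
  push Not at hc
  obtain ⟨f, hf, hf'⟩ := hv.2.2
  obtain ⟨s, hs, hcard⟩ := Set.exists_subset_card_eq hc
  have hc' : Nat.card s = t := by rw [← hcard]; rfl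
  let e := (Finite.equivFinOfCardEq hc').symm
  refine hK ⟨f, fun i => (e i : V), hf, fun a b hab => e.injective (Subtype.ext hab), ?_⟩
  intro i j
  obtain ⟨ρ, h1, h2, h3⟩ := hs (e j).2
  have h4 := pl_unique (Or.inr h2) (Or.inr hv)
  subst h4
  exact ((h3 (f i) (hf' i).1).2 (hf' i).2).symm

theorem exists_good (ht : 1 ≤ t) (hν : Function.Injective ν) (hK : Ktt t G) :
    ∃ W : PW t → Set V, Good G t ν W := by
  classical
  obtain ⟨χ, hχ⟩ := exists_col (G := G) ht hν
  let κ : V → ℕ := fun v => {u | u ∈ cls G t ν v ∧ ν u < ν v}.ncard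
  refine ⟨Sum.elim (Sum.elim
    (fun j => {y | ∃ π, Sd G t ν y π ∧ atl G (st π) j y ∧ ¬ atl G (st π) (j + 1) y})
    (fun i => {v | κ v = i}))
    (Sum.elim (fun j => {v | χ v = j}) (fun j => {y | ∃ h B, Pl G t ν y (h :: B) ∧ χ h = j})),
    ?_, ?_, ?_, ?_⟩
  · intro j y
    exact Iff.rfl
  · intro u v π hu hv h
    have h1 := cls_eq hu hv h
    have hκ : κ v < t := lt_of_le_of_lt (Set.ncard_le_ncard (fun _ h => h.1) (Set.toFinite _))
      (cls_card hK hv)
    have hκ' : κ u < t := lt_of_le_of_lt (Set.ncard_le_ncard (fun _ h => h.1) (Set.toFinite _))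
      (cls_card hK hu)
    have h2 : (∃ i j : Fin t, i < j ∧ κ u = i ∧ κ v = j) ↔ κ u < κ v := by
      constructor
      · rintro ⟨i, j, h3, h4, h5⟩
        rw [h4, h5]
        exact h3
      · intro h3
        exact ⟨⟨κ u, hκ'⟩, ⟨κ v, hκ⟩, h3, rfl, rfl⟩
    refine h2.trans ?_
    constructor
    · intro h3
      by_contra h4
      push Not at h4
      refine absurd h3 (not_lt.2 (Set.ncard_le_ncard ?_ (Set.toFinite _)))
      rintro w ⟨h5, h6⟩
      rw [h1]
      exact ⟨h5, lt_of_lt_of_le h6 h4⟩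
    · intro h3
      refine Set.ncard_lt_ncard ?_ (Set.toFinite _)
      refine ⟨?_, ?_⟩
      · rintro w ⟨h5, h6⟩
        rw [← h1]
        exact ⟨h5, h6.trans h3⟩
      · intro h4
        have h5 := h4 (show u ∈ {w | w ∈ cls G t ν v ∧ ν w < ν v} from ⟨⟨π, hu, hv, h⟩, h3⟩)
        exact lt_irrefl _ h5.2
  · intro y h π hy
    exact ⟨χ h, ⟨h, π, hy, rfl⟩, rfl⟩
  · rintro y z π hz hy ha ⟨j, ⟨h, B, hB, h1⟩, h2⟩
    have h2' : χ z = j := h2
    exact hχ z π hz y hy ha h B hB (h2'.trans h1.symm)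

end Pool.MP_33c730_lc.Ws
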