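import Pool.Agent.Lib.MP_33c730_lc.Ws.WDec
import Pool.Agent.Lib.MP_33c730_lc.Ws.WCol

set_option autoImplicit false

namespace Pool.MP_33c730_lc.Ws

/-! ### WVld: the valid sets are the paths -/

section
variable {V : Type} {G : SimpleGraph V} {t : ℕ} {W : PW t → Set V}

theorem ro_refl {Q : Set V} {a : V} : ro G W Q a a := fun _ h _ => h

theorem ro_trans {Q : Set V} {a b c : V} (h : ro G W Q a b) (h' : ro G W Q b c) :
    ro G W Q a c := fun Y hY hs => h Y (h' Y hY hs) hs

theorem ro_step {Q : Set V} {a b c : V} (h : ro G W Q a b) (h' : ar G W Q a c) :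
    ro G W Q c b := fun Y hY hs => hs a c (h Y hY hs) h'

theorem ro_mono {Q Q' : Set V} (h : Q' ⊆ Q) {a b : V} (hr : ro G W Q' a b) : ro G W Q a b :=
  fun Y hY hs => hr Y hY (fun u w hu ha => hs u w hu ⟨h ha.1, h ha.2.1, ha.2.2⟩)

/-- the last element of a finite set which is linearly ordered by `ro` -/
theorem exists_last [Finite V] {Q : Set V} (hQ : Q.Nonempty)
    (h1 : ∀ a ∈ Q, ∀ b ∈ Q, ro G W Q a b ∨ ro G W Q b a) :
    ∃ l ∈ Q, ∀ a ∈ Q, ro G W Q a l := by
  obtain ⟨l, hl, hmax⟩ := Set.exists_max_image Q (fun l => {a | a ∈ Q ∧ ro G W Q a l}.ncard)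
    (Set.toFinite _) hQ
  refine ⟨l, hl, fun a ha => ?_⟩
  rcases h1 a ha l hl with h | h
  · exact h
  · have h2 : {b | b ∈ Q ∧ ro G W Q b l} ⊆ {b | b ∈ Q ∧ ro G W Q b a} :=
      fun b hb => ⟨hb.1, ro_trans hb.2 h⟩
    have h3 := Set.eq_of_subset_of_ncard_le h2 (hmax a ha) (Set.toFinite _)
    have h4 : a ∈ {b | b ∈ Q ∧ ro G W Q b a} := ⟨ha, ro_refl⟩
    rw [← h3] at h4
    exact h4.2

/-- removing the last element -/
theorem ro_restrict {Q : Set V} {l : V} (hl : ∀ a ∈ Q, ro G W Q a l)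
    (h2 : ∀ a ∈ Q, ∀ b ∈ Q, ro G W Q a b → ro G W Q b a → a = b) (hlQ : l ∈ Q) {a b : V}
    (hb : b ∈ Q) (hbl : b ≠ l) : ro G W (Q \ {l}) a b ↔ ro G W Q a b := by
  constructor
  · exact ro_mono Set.diff_subset
  · intro h Y hY hs
    refine (h {c | c ∈ Y ∧ ro G W Q c b} ⟨hY, ro_refl⟩ ?_).1
    rintro u w ⟨hu, hu'⟩ ha
    have hw := ro_step hu' ha
    have hul : u ≠ l := by
      rintro rfl
      exact hbl (h2 b hb u hlQ (hl b hb) hu')
    have hwl : w ≠ l := by
      rintro rfl
      exact hbl (h2 b hb w hlQ (hl b hb) hw)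
    exact ⟨hs u w hu ⟨⟨ha.1, hul⟩, ⟨ha.2.1, hwl⟩, ha.2.2⟩, hw⟩
end

variable {V : Type} [Finite V] [Nonempty V] {G : SimpleGraph V} {t : ℕ} {ν : V → ℕ}
  {W : PW t → Set V}

theorem vld_path (ht : 1 ≤ t) (hν : Function.Injective ν) (hW : Good G t ν W) {x : V}
    {Q : Set V} : vld G W Q x ↔ ∃ π, Pth G t ν x π ∧ Q = st π := by
  constructor
  · intro h
    obtain ⟨n, hn⟩ : ∃ n, n = Q.ncard := ⟨_, rfl⟩
    induction n using Nat.strong_induction_on generalizing Q with
    | _ n ih =>
      obtain ⟨h1, h2, h3⟩ := h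
      rcases Set.eq_empty_or_nonempty Q with hQ | hQ
      · exact ⟨[], Pth.nil, by rw [hQ, st_nil]⟩
      · obtain ⟨l, hl, hmax⟩ := exists_last hQ h1
        have h4 : ini G W Q l = Q \ {l} := by
          ext a
          exact ⟨fun ha => ⟨ha.1, ha.2.1⟩, fun ha => ⟨ha.1, ha.2, hmax a ha.1⟩⟩
        have h5 : ∀ a b, b ∈ Q → b ≠ l → (ro G W (Q \ {l}) a b ↔ ro G W Q a b) :=
          fun a b hb hbl => ro_restrict hmax h2 hl hb hbl
        have h6 : vld G W (Q \ {l}) x := by
          refine ⟨fun a ha b hb => ?_, fun a ha b hb hab hba => ?_, fun y hy => ?_⟩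
          · rw [h5 a b hb.1 hb.2, h5 b a ha.1 ha.2]
            exact h1 a ha.1 b hb.1
          · rw [h5 a b hb.1 hb.2] at hab
            rw [h5 b a ha.1 ha.2] at hba
            exact h2 a ha.1 b hb.1 hab hba
          · have h7 : ini G W (Q \ {l}) y = ini G W Q y := by
              ext a
              constructor
              · rintro ⟨h8, h9, h10⟩
                exact ⟨h8.1, h9, (h5 a y hy.1 hy.2).1 h10⟩
              · rintro ⟨h8, h9, h10⟩
                refine ⟨⟨h8, ?_⟩, h9, (h5 a y hy.1 hy.2).2 h10⟩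
                intro h11
                rw [Set.mem_singleton_iff] at h11
                rw [h11] at h10
                exact hy.2 (h2 y hy.1 l hl (hmax y hy.1) h10)
            rw [h7]
            exact h3 y hy.1
        have h7 : (Q \ {l}).ncard < n := by
          rw [hn]
          exact Set.ncard_diff_singleton_lt_of_mem hl (Set.toFinite _)
        obtain ⟨π, h8, h9⟩ := ih _ h7 h6 rfl
        have h10 := h3 l hl
        rw [h4, h9, rul_path ht hν hW h8] at h10
        refine ⟨l :: π, ?_, ?_⟩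
        · rw [pth_cons]
          exact ⟨h8, h10.1, h10.2⟩
        · rw [st_cons, ← h9, Set.insert_diff_singleton, Set.insert_eq_of_mem hl]
  · rintro ⟨π, hp, rfl⟩
    refine ⟨fun a ha b hb => ?_, fun a ha b hb hab hba => ?_, fun y hy => ?_⟩
    · obtain ⟨A, hA⟩ := suffix_of_mem (mem_st.1 ha)
      obtain ⟨B, hB⟩ := suffix_of_mem (mem_st.1 hb)
      rw [ro_path ht hν hW hp hB, ro_path ht hν hW hp hA]
      by_cases he : a = b
      · exact Or.inl (by rw [he]; exact List.mem_cons_self)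
      · rcases suffix_mem hA hB he with h | h
        · exact Or.inl (List.mem_cons_of_mem _ h)
        · exact Or.inr (List.mem_cons_of_mem _ h)
    · obtain ⟨A, hA⟩ := suffix_of_mem (mem_st.1 ha)
      obtain ⟨B, hB⟩ := suffix_of_mem (mem_st.1 hb)
      rw [ro_path ht hν hW hp hB] at hab
      rw [ro_path ht hν hW hp hA] at hba
      have h1 : (a :: A) <:+ (b :: B) ∨ (b :: B) <:+ (a :: A) :=
        List.suffix_or_suffix_of_suffix hA hB
      have hnd := pth_nodup ht hν hp
      have hna : a ∉ A := (List.nodup_cons.1 (hnd.sublist hA.sublist)).1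
      have hnb : b ∉ B := (List.nodup_cons.1 (hnd.sublist hB.sublist)).1
      rcases h1 with h1 | h1
      · rcases List.suffix_cons_iff.1 h1 with h2 | h2
        · exact (List.cons_eq_cons.1 h2).1
        · exact absurd (h2.subset hba) hnb
      · rcases List.suffix_cons_iff.1 h1 with h2 | h2
        · exact (List.cons_eq_cons.1 h2).1.symm
        · exact absurd (h2.subset hab) hna
    · obtain ⟨B, hB⟩ := suffix_of_mem (mem_st.1 hy)
      have h1 := pth_suffix hB hp
      rw [ini_path ht hν hW hp hB, rul_path ht hν hW (pth_cons.1 h1).1]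
      exact (pth_cons.1 h1).2

theorem leW_path (ht : 1 ≤ t) (hν : Function.Injective ν) (hW : Good G t ν W) (u w : V) :
    leW G W u w ↔ leP G t ν u w := by
  constructor
  · rintro ⟨Q, h1, h2⟩
    obtain ⟨π, hp, rfl⟩ := (vld_path ht hν hW).1 h1
    rcases h2 with ⟨h3, h4, h5⟩ | ⟨h3, h4, h5, l, h6, h7, h8⟩
    · rw [sdr_path ht hν hW hp h3] at h4
      exact Or.inl ⟨π, h4.2, h5⟩
    · cases π with
      | nil => exact absurd h6.1 (by simp [st])
      | cons h π =>
        rw [lst_path ht hν hW hp] at h6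
        subst h6
        rw [st_diff (List.nodup_cons.1 (pth_nodup ht hν hp)).1] at h7
        refine Or.inr ⟨l, π, ⟨hp, h3, h4⟩, h7, h5, ?_⟩
        rcases h8 with h8 | h8
        · exact Or.inl h8
        · refine Or.inr fun h9 => ?_
          rw [← can_path ht hν hW ⟨hp, h3, h4⟩ ⟨pth_block' hp h7, h5, h9⟩]
          exact h8 h9
  · rintro (⟨π, h1, h2⟩ | ⟨h, π, h1, h2, h3, h4⟩)
    · exact ⟨st π, (vld_path ht hν hW).2 ⟨π, h1.1, rfl⟩, Or.inl ⟨h1.2.1,
        (sdr_path ht hν hW h1.1 h1.2.1).2 ⟨cm_self, h1⟩, h2⟩⟩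
    · refine ⟨st (h :: π), (vld_path ht hν hW).2 ⟨_, h1.1, rfl⟩, Or.inr ⟨h1.2.1, h1.2.2, h3,
        h, (lst_path ht hν hW h1.1).2 rfl, ?_, ?_⟩⟩
      · rw [st_diff (List.nodup_cons.1 (pth_nodup ht hν h1.1)).1]
        exact h2
      · rcases h4 with h4 | h4
        · exact Or.inl h4
        · refine Or.inr fun h9 => ?_
          rw [can_path ht hν hW h1 ⟨pth_block' h1.1 h2, h3, h9⟩]
          exact h4 h9

omit [Nonempty V] in
/-- **A forest order on a graph without `K_{t,t}` coded by boundedly many vertex sets.** -/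
theorem forest_leW (ht : 1 ≤ t) (hK : Ktt t G) : ∃ W : PW t → Set V, Forest G (leW G W) := by
  classical
  rcases isEmpty_or_nonempty V with hV | hV
  · exact ⟨fun _ => ∅, ⟨fun x => hV.elim x, fun x => hV.elim x, fun x => hV.elim x,
      fun x => hV.elim x, fun x => hV.elim x⟩⟩
  · obtain ⟨n, ⟨e⟩⟩ := Finite.exists_equiv_fin V
    have hν : Function.Injective (fun v => (e v : ℕ)) :=
      fun a b h => e.injective (Fin.ext h)
    obtain ⟨W, hW⟩ := exists_good ht hν hK
    refine ⟨W, ?_⟩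
    have h1 : leW G W = leP G t (fun v => (e v : ℕ)) := by
      funext u w
      exact propext (leW_path ht hν hW u w)
    rw [h1]
    exact forest_leP ht hν

end Pool.MP_33c730_lc.Ws
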