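import Pool.Agent.Lib.MP_33c730_lc.Ws.MainA
import Pool.Agent.Lib.MP_33c730_lc.Ws.WVld
import Pool.Agent.Lib.MP_33c730_lc.Ws.WDef

set_option autoImplicit false

namespace Pool.MP_33c730_lc.Ws

/-! ### WMain: graphs without `K_{t,t}` -/

/-- the coded order as an MSO definable relation -/
def relW (C : Type) (t : ℕ) : LRel C where
  P0 := PW t
  fin := inferInstance
  L G S := leW G.gr S
  dL i j := def_leW i j

/-- Order-invariant first-order logic is contained in MSO on the graphs without `K_{t,t}`. -/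
theorem main_ktt (C : Type) [Finite C] (t : ℕ) (φ : FO C Empty) (hφ : OrderInvariant φ) :
    ∃ ψ : MSO C Empty Empty, ∀ (V : Type) [Finite V] (G : CG C V), Ktt t G.gr →
      ∀ lt : V → V → Prop, IsStrictTotalOrder V lt →
        (ψ.Sat G Empty.elim Empty.elim ↔ φ.Sat G lt Empty.elim) := by
  letI : LRel C := relW C t
  obtain ⟨ψ, hψ⟩ := main_abs C φ hφ
  refine ⟨ψ, fun V _ G hG lt hlt => hψ V G ?_ lt hlt⟩
  rcases Nat.eq_zero_or_pos t with h0 | h0
  · subst h0
    exact absurd ⟨fun i => i.elim0, fun i => i.elim0, fun i => i.elim0, fun i => i.elim0,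
      fun i => i.elim0⟩ hG
  · exact forest_leW h0 hG

end Pool.MP_33c730_lc.Ws
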