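import Pool.Agent.Lib.MP_33c730_lc.Ws.SpDefs
import Pool.Agent.Lib.MP_33c730_lc.Ws.WMain

set_option autoImplicit false

namespace Pool.MP_33c730_lc.Ws

/-! ### Sp: transfer to graphs which are interdefinable with graphs without `K_{t,t}` -/

/-- renaming of the free variables -/
def FO.ren {C : Type} : {α α' : Type} → (α → α') → FO C α → FO C α'
  | _, _, f, .eq i j => .eq (f i) (f j)
  | _, _, f, .adj i j => .adj (f i) (f j)
  | _, _, f, .lt i j => .lt (f i) (f j)
  | _, _, f, .col c i => .col c (f i)
  | _, _, f, .neg φ => .neg (FO.ren f φ)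
  | _, _, f, .and φ ψ => .and (FO.ren f φ) (FO.ren f ψ)
  | _, _, f, .ex φ => .ex (FO.ren (Option.map f) φ)

private theorem sp_ext {α α' X : Type} (x : X) (f : α → α') (v : α' → X) :
    (fun i => ext x v (Option.map f i)) = ext x (fun i => v (f i)) := by
  funext i
  cases i <;> rfl

theorem FO.sat_ren {C V : Type} (G : CG C V) (r : V → V → Prop) {α α' : Type} (f : α → α')
    (φ : FO C α) (v : α' → V) :
    (FO.ren f φ).Sat G r v ↔ φ.Sat G r (fun i => v (f i)) := by
  induction φ generalizing α' with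
  | eq i j => exact Iff.rfl
  | adj i j => exact Iff.rfl
  | lt i j => exact Iff.rfl
  | col c i => exact Iff.rfl
  | neg φ ih => exact not_congr (ih f v)
  | and φ ψ ih1 ih2 => exact and_congr (ih1 f v) (ih2 f v)
  | ex φ ih =>
    refine exists_congr fun x => ?_
    rw [ih (Option.map f) (ext x v), sp_ext]

/-- formulas without the order do not depend on the order. -/
theorem noLt_sat {C V : Type} (G : CG C V) (r r' : V → V → Prop) {α : Type} (φ : FO C α)
    (h : NoLt φ) (v : α → V) : φ.Sat G r v ↔ φ.Sat G r' v := by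
  induction φ with
  | eq i j => exact Iff.rfl
  | adj i j => exact Iff.rfl
  | lt i j => exact h.elim
  | col c i => exact Iff.rfl
  | neg φ ih => exact not_congr (ih h v)
  | and φ ψ ih1 ih2 => exact and_congr (ih1 h.1 v) (ih2 h.2 v)
  | ex φ ih => exact exists_congr fun x => ih h _

/-- first-order formulas without the order are MSO formulas. -/
def toMSO {C β : Type} : {α : Type} → FO C α → MSO C α β
  | _, .eq i j => .eq i j
  | _, .adj i j => .adj i j
  | _, .lt i j => .eq i j
  | _, .col c i => .col c i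
  | _, .neg f => .neg (toMSO f)
  | _, .and f g => .and (toMSO f) (toMSO g)
  | _, .ex f => .ex (toMSO f)

theorem toMSO_sat {C V β : Type} (G : CG C V) (r : V → V → Prop) {α : Type} (φ : FO C α)
    (h : NoLt φ) (v : α → V) (S : β → Set V) : (toMSO φ).Sat G v S ↔ φ.Sat G r v := by
  induction φ with
  | eq i j => exact Iff.rfl
  | adj i j => exact Iff.rfl
  | lt i j => exact h.elim
  | col c i => exact Iff.rfl
  | neg φ ih => exact not_congr (ih h v)
  | and φ ψ ih1 ih2 => exact and_congr (ih1 h.1 v) (ih2 h.2 v)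
  | ex φ ih => exact exists_congr fun x => ih h _

section
variable {C D : Type} {k : ℕ}

/-- the formula `φ`, with adjacency replaced by `θ` and quantifiers relativised to the copy with
index `0` -/
def trl (θ : FO (C ⊕ (D ⊕ Fin (k + 1))) (Fin 2)) : {α : Type} → FO C α →
    FO (C ⊕ (D ⊕ Fin (k + 1))) α
  | _, .eq i j => .eq i j
  | _, .adj i j => .and (.neg (.eq i j)) (.and (FO.ren ![i, j] θ) (FO.ren ![j, i] θ))
  | _, .lt i j => .lt i j
  | _, .col c i => .col (.inl c) i
  | _, .neg f => .neg (trl θ f)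
  | _, .and f g => .and (trl θ f) (trl θ g)
  | _, .ex f => .ex (.and (.col (.inr (.inr 0)) none) (trl θ f))

private theorem sp_pair {α V : Type} (v : α → V) (i j : α) :
    (fun a => v ((![i, j] : Fin 2 → α) a)) = ![v i, v j] := by
  funext a
  fin_cases a <;> rfl

/-- the graph defined by `θ` -/
def dg (θ : FO (C ⊕ (D ⊕ Fin (k + 1))) (Fin 2)) {U : Type} (H : CG (C ⊕ (D ⊕ Fin (k + 1))) U) :
    CG C {u : U // H.col (.inr (.inr 0)) u} where
  gr :=
    { Adj := fun x y => x ≠ y ∧ (θ.Sat H (fun _ _ => False) ![x.1, y.1] ∧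
        θ.Sat H (fun _ _ => False) ![y.1, x.1])
      symm := ⟨fun _ _ h => ⟨h.1.symm, h.2.symm⟩⟩
      loopless := ⟨fun _ h => h.1 rfl⟩ }
  col := fun c x => H.col (.inl c) x.1

theorem trl_sat (θ : FO (C ⊕ (D ⊕ Fin (k + 1))) (Fin 2)) (hθ : NoLt θ) {U : Type}
    (H : CG (C ⊕ (D ⊕ Fin (k + 1))) U) (r : U → U → Prop) {α : Type} (φ : FO C α)
    (v : α → {u : U // H.col (.inr (.inr 0)) u}) :
    (trl θ φ).Sat H r (fun a => (v a).1) ↔ φ.Sat (dg θ H) (fun x y => r x.1 y.1) v := by
  induction φ with
  | eq i j => exact Subtype.ext_iff.symm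
  | adj i j =>
    refine and_congr (not_congr Subtype.ext_iff.symm) (and_congr ?_ ?_)
    · rw [FO.sat_ren, sp_pair (fun a => (v a).1)]
      exact noLt_sat H _ _ θ hθ _
    · rw [FO.sat_ren, sp_pair (fun a => (v a).1)]
      exact noLt_sat H _ _ θ hθ _
  | lt i j => exact Iff.rfl
  | col c i => exact Iff.rfl
  | neg φ ih => exact not_congr (ih v)
  | and φ ψ ih1 ih2 => exact and_congr (ih1 v) (ih2 v)
  | ex φ ih =>
    have he : ∀ x : {u : U // H.col (.inr (.inr 0)) u},
        (fun a => (ext x v a).1) = ext x.1 (fun a => (v a).1) := by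
      intro x
      funext a
      cases a <;> rfl
    constructor
    · rintro ⟨x, hx, h⟩
      refine ⟨⟨x, hx⟩, (ih (ext ⟨x, hx⟩ v)).1 ?_⟩
      rw [he]
      exact h
    · rintro ⟨x, h⟩
      refine ⟨x.1, x.2, ?_⟩
      rw [← he]
      exact (ih _).2 h

theorem trl_inv (θ : FO (C ⊕ (D ⊕ Fin (k + 1))) (Fin 2)) (hθ : NoLt θ) (φ : FO C Empty)
    (hφ : OrderInvariant φ) : OrderInvariant (trl θ φ) := by
  intro U _ H r r' hr hr'
  have key : ∀ s : U → U → Prop, IsStrictTotalOrder U s →
      IsStrictTotalOrder {u : U // H.col (.inr (.inr 0)) u} (fun x y => s x.1 y.1) := by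
    intro s hs
    exact {
      trichotomous := fun x y h1 h2 => Subtype.ext (hs.trichotomous _ _ h1 h2)
      irrefl := fun x => hs.irrefl x.1
      trans := fun x y z h1 h2 => hs.trans _ _ _ h1 h2 }
  have h1 := trl_sat θ hθ H r φ Empty.elim
  have h2 := trl_sat θ hθ H r' φ Empty.elim
  have he : (fun a : Empty => ((Empty.elim a : {u : U // H.col (.inr (.inr 0)) u})).1) =
      Empty.elim := by
    funext a
    exact a.elim
  rw [he] at h1 h2
  rw [h1, h2]
  exact hφ _ (dg θ H) _ _ (key r hr) (key r' hr')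

variable {V : Type}

/-- the order on the copies -/
def olx (lt : V → V → Prop) (p q : V × Fin (k + 1)) : Prop :=
  lt p.1 q.1 ∨ (p.1 = q.1 ∧ p.2 < q.2)

theorem olx_strict (lt : V → V → Prop) (h : IsStrictTotalOrder V lt) :
    IsStrictTotalOrder (V × Fin (k + 1)) (olx lt) where
  trichotomous p q h1 h2 := by
    unfold olx at h1 h2
    push Not at h1 h2
    have h3 : p.1 = q.1 := h.trichotomous _ _ h1.1 h2.1
    exact Prod.ext h3 (le_antisymm (h2.2 h3.symm) (h1.2 h3))
  irrefl p := by
    rintro (h1 | h1)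
    · exact h.irrefl _ h1
    · exact lt_irrefl _ h1.2
  trans p q s := by
    rintro (h1 | h1) (h2 | h2)
    · exact Or.inl (h.trans _ _ _ h1 h2)
    · exact Or.inl (by rw [← h2.1]; exact h1)
    · exact Or.inl (by rw [h1.1]; exact h2)
    · exact Or.inr ⟨h1.1.trans h2.1, h1.2.trans h2.2⟩

/-- evaluation in the interpreted graph -/
theorem trl_interp (η : Fin (k + 1) → Fin (k + 1) → MSO C (Fin 2) D)
    (θ : FO (C ⊕ (D ⊕ Fin (k + 1))) (Fin 2)) (hθ : NoLt θ) (G : CG C V) (S : D → Set V)
    (hS : ∀ x y, G.gr.Adj x y ↔ θ.Sat (Interp η G S) (fun _ _ => False) ![(x, 0), (y, 0)])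
    (lt : V → V → Prop) {α : Type} (φ : FO C α) (v : α → V) :
    (trl θ φ).Sat (Interp η G S) (olx lt) (fun a => (v a, 0)) ↔ φ.Sat G lt v := by
  induction φ with
  | eq i j => exact ⟨fun h => congrArg Prod.fst h, fun h => congrArg (fun z => (z, 0)) h⟩
  | adj i j =>
    have h1 : (FO.ren ![i, j] θ).Sat (Interp η G S) (olx lt) (fun a => (v a, 0)) ↔
        G.gr.Adj (v i) (v j) := by
      rw [FO.sat_ren, sp_pair (fun a => (v a, (0 : Fin (k + 1)))), hS]
      exact noLt_sat _ _ _ θ hθ _
    have h2 : (FO.ren ![j, i] θ).Sat (Interp η G S) (olx lt) (fun a => (v a, 0)) ↔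
        G.gr.Adj (v j) (v i) := by
      rw [FO.sat_ren, sp_pair (fun a => (v a, (0 : Fin (k + 1)))), hS]
      exact noLt_sat _ _ _ θ hθ _
    constructor
    · rintro ⟨-, h3, -⟩
      exact h1.1 h3
    · intro h
      refine ⟨fun h3 => ?_, h1.2 h, h2.2 h.symm⟩
      have h4 : v i = v j := congrArg Prod.fst h3
      have h5 : G.gr.Adj (v i) (v j) := h
      rw [h4] at h5
      exact h5.ne rfl
  | lt i j =>
    constructor
    · rintro (h | h)
      · exact h
      · exact absurd h.2 (lt_irrefl _)
    · exact Or.inl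
  | col c i => exact Iff.rfl
  | neg φ ih => exact not_congr (ih v)
  | and φ ψ ih1 ih2 => exact and_congr (ih1 v) (ih2 v)
  | ex φ ih =>
    have he : ∀ x : V, (fun a => (ext x v a, (0 : Fin (k + 1)))) =
        ext (x, (0 : Fin (k + 1))) (fun a => (v a, 0)) := by
      intro x
      funext a
      cases a <;> rfl
    constructor
    · rintro ⟨⟨x, i⟩, hx, h⟩
      have hx' : i = 0 := hx
      subst hx'
      refine ⟨x, (ih (ext x v)).1 ?_⟩
      rw [he]
      exact h
    · rintro ⟨x, h⟩
      refine ⟨(x, 0), rfl, ?_⟩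
      rw [← he]
      exact (ih _).2 h

private def sp_shift {α ι : Type} : α ⊕ Option ι → Option α ⊕ ι
  | .inl a => .inl (some a)
  | .inr none => .inl none
  | .inr (some i) => .inr i

/-- quantification over finitely many sets at once -/
theorem def_exSets {C α β κ : Type} [Finite κ]
    {R : ∀ {V : Type}, CG C V → (α → V) → (β ⊕ κ → Set V) → Prop} (h : Def C α (β ⊕ κ) R) :
    Def C α β fun {V} G v S => ∃ f : κ → Set V, R G v (Sum.elim S f) := by
  have key : ∀ (κ : Type) [Finite κ], ∀ (β' : Type)
      (Q : ∀ {V : Type}, CG C V → (α → V) → (β' ⊕ κ → Set V) → Prop),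
      Def C α (β' ⊕ κ) Q →
      Def C α β' fun {V} G v S => ∃ f : κ → Set V, Q G v (Sum.elim S f) := by
    intro κ hκ
    induction κ using Finite.induction_empty_option with
    | of_equiv e ih =>
      intro β' Q hQ
      refine Def.congr (ih β' _ (hQ.rename id (Sum.map id e.symm))) ?_
      intro V G v S
      constructor
      · rintro ⟨f, hf⟩
        refine ⟨fun j => f (e.symm j), ?_⟩
        have h1 : (fun i => Sum.elim S f (Sum.map id e.symm i)) =
            Sum.elim S (fun j => f (e.symm j)) := by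
          funext i
          cases i <;> rfl
        rw [← h1]
        exact hf
      · rintro ⟨f, hf⟩
        refine ⟨fun j => f (e j), ?_⟩
        have h1 : (fun i => Sum.elim S (fun j => f (e j)) (Sum.map id e.symm i)) =
            Sum.elim S f := by
          funext i
          cases i with
          | inl a => rfl
          | inr a => exact congrArg f (e.apply_symm_apply a)
        change Q G (fun X => v X) (fun i => Sum.elim S (fun j => f (e j)) (Sum.map id e.symm i))
        rw [h1]
        exact hf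
    | h_empty =>
      intro β' Q hQ
      refine Def.congr (hQ.rename id (Sum.elim id PEmpty.elim)) ?_
      intro V G v S
      have h1 : ∀ f : PEmpty → Set V, (fun i => S (Sum.elim id PEmpty.elim i)) =
          Sum.elim S f := by
        intro f
        funext i
        cases i with
        | inl a => rfl
        | inr a => exact a.elim
      constructor
      · intro hf
        refine ⟨PEmpty.elim, ?_⟩
        rw [← h1 PEmpty.elim]
        exact hf
      · rintro ⟨f, hf⟩
        rw [← h1 f] at hf
        exact hf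
    | h_option ih =>
      intro β' Q hQ
      refine Def.congr (Def.exS (ih (Option β') _ (hQ.rename id sp_shift))) ?_
      intro V G v S
      constructor
      · rintro ⟨x, f, hf⟩
        refine ⟨ext x f, ?_⟩
        have h1 : (fun i => Sum.elim (ext x S) f (sp_shift i)) =
            Sum.elim S (ext x f) := by
          funext i
          rcases i with a | (_ | a) <;> rfl
        rw [← h1]
        exact hf
      · rintro ⟨f, hf⟩
        refine ⟨f none, fun i => f (some i), ?_⟩
        have h1 : (fun i => Sum.elim (ext (f none) S) (fun i => f (some i)) (sp_shift i)) =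
            Sum.elim S f := by
          funext i
          rcases i with a | (_ | a) <;> rfl
        change Q G (fun X => v X)
          (fun i => Sum.elim (ext (f none) S) (fun i => f (some i)) (sp_shift i))
        rw [h1]
        exact hf
  exact key κ β R h

/-- MSO properties of the interpreted graph are MSO definable. -/
theorem def_interp (η : Fin (k + 1) → Fin (k + 1) → MSO C (Fin 2) D) {α β : Type}
    (ψ : MSO (C ⊕ (D ⊕ Fin (k + 1))) α β) (idx : α → Fin (k + 1)) :
    Def C α (D ⊕ (β × Fin (k + 1))) fun G v S =>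
      ψ.Sat (Interp η G (fun d => S (.inl d))) (fun a => (v a, idx a))
        (fun X => {p | p.1 ∈ S (.inr (X, p.2))}) := by
  have hη : ∀ {α β : Type} (i j : Fin (k + 1)) (a b : α),
      Def C α (D ⊕ (β × Fin (k + 1))) fun G v S =>
        (η i j).Sat G ![v a, v b] (fun d => S (.inl d)) := by
    intro α β i j a b
    have h1 : Def C (Fin 2) D fun G v S => (η i j).Sat G v S := ⟨η i j, fun _ _ _ _ => Iff.rfl⟩
    refine Def.congr (Def.rename h1 ![a, b] (.inl : D → D ⊕ (β × Fin (k + 1)))) ?_
    intro V G v S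
    rw [sp_pair]
  induction ψ with
  | eq i j =>
    refine Def.congr (Def.and (Def.eq i j) (Def.const (idx i = idx j))) ?_
    intro V G v S
    exact ⟨fun h => Prod.ext h.1 h.2, fun h => ⟨congrArg Prod.fst h, congrArg Prod.snd h⟩⟩
  | adj i j =>
    refine Def.congr (Def.and (Def.not (Def.and (Def.eq i j) (Def.const (idx i = idx j))))
      (Def.or (hη (idx i) (idx j) i j) (hη (idx j) (idx i) j i))) ?_
    intro V G v S
    refine and_congr (not_congr ?_) Iff.rfl
    exact ⟨fun h => Prod.ext h.1 h.2, fun h => ⟨congrArg Prod.fst h, congrArg Prod.snd h⟩⟩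
  | col c i =>
    rcases c with c | c | c
    · exact Def.congr (Def.col c i) (fun _ _ _ => Iff.rfl)
    · exact Def.congr (Def.mem i (.inl c)) (fun _ _ _ => Iff.rfl)
    · exact Def.congr (Def.const (idx i = c)) (fun _ _ _ => Iff.rfl)
  | mem i X => exact Def.congr (Def.mem i (.inr (X, idx i))) (fun _ _ _ => Iff.rfl)
  | neg ψ ih => exact Def.not (ih idx)
  | and ψ χ ih1 ih2 => exact Def.and (ih1 idx) (ih2 idx)
  | ex ψ ih =>
    refine Def.congr (Def.exFin fun i : Fin (k + 1) => Def.ex (ih (ext i idx))) ?_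
    intro V G v S
    have he : ∀ (x : V) (i : Fin (k + 1)), (fun a => (ext x v a, ext i idx a)) =
        ext (x, i) (fun a => (v a, idx a)) := by
      intro x i
      funext a
      cases a <;> rfl
    constructor
    · rintro ⟨i, x, h⟩
      refine ⟨(x, i), ?_⟩
      rw [← he]
      exact h
    · rintro ⟨⟨x, i⟩, h⟩
      refine ⟨i, x, ?_⟩
      rw [he]
      exact h
  | @exS α β ψ ih =>
    have h1 := ih idx
    have h2 := Def.rename h1 (fun a => a) (fun X : D ⊕ (Option β × Fin (k + 1)) =>
      (match X with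
      | .inl d => .inl (.inl d)
      | .inr (none, i) => .inr i
      | .inr (some b, i) => .inl (.inr (b, i)) :
        (D ⊕ (β × Fin (k + 1))) ⊕ Fin (k + 1)))
    refine Def.congr (def_exSets h2) ?_
    intro V G v S
    have he : ∀ (Y : Fin (k + 1) → Set V), (fun X : Option β => {p : V × Fin (k + 1) | p.1 ∈
        (Sum.elim S Y : (D ⊕ (β × Fin (k + 1))) ⊕ Fin (k + 1) → Set V)
          (match (.inr (X, p.2) : D ⊕ (Option β × Fin (k + 1))) with
          | .inl d => .inl (.inl d)
          | .inr (none, i) => .inr i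
          | .inr (some b, i) => .inl (.inr (b, i)))}) =
        ext {p : V × Fin (k + 1) | p.1 ∈ Y p.2} (fun X => {p | p.1 ∈ S (.inr (X, p.2))}) := by
      intro Y
      funext X
      cases X <;> rfl
    constructor
    · rintro ⟨Y, h⟩
      refine ⟨{p | p.1 ∈ Y p.2}, ?_⟩
      rw [← he]
      exact h
    · rintro ⟨Z, h⟩
      refine ⟨fun i => {x | (x, i) ∈ Z}, ?_⟩
      have h3 := he (fun i => {x | (x, i) ∈ Z})
      have h4 : ext Z (fun X => {p : V × Fin (k + 1) | p.1 ∈ S (.inr (X, p.2))}) =
        ext {p : V × Fin (k + 1) | p.1 ∈ (fun i => {x | (x, i) ∈ Z}) p.2}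
          (fun X => {p | p.1 ∈ S (.inr (X, p.2))}) := rfl
      rw [h4, ← h3] at h
      exact h

theorem def_ktt {C α β : Type} (t : ℕ) : Def C α β fun G _ _ => Ktt t G.gr := by
  refine Def.congr (Def.not (Def.exTup (ι := Fin t ⊕ Fin t)
    (Def.and (Def.allFin fun i : Fin t => Def.allFin fun j : Fin t =>
      Def.imp (Def.eq (.inr (.inl i)) (.inr (.inl j))) (Def.const (i = j)))
    (Def.and (Def.allFin fun i : Fin t => Def.allFin fun j : Fin t =>
      Def.imp (Def.eq (.inr (.inr i)) (.inr (.inr j))) (Def.const (i = j)))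
    (Def.allFin fun i : Fin t => Def.allFin fun j : Fin t =>
      Def.adj (.inr (.inl i)) (.inr (.inr j))))))) ?_
  intro V G v S
  refine not_congr ?_
  constructor
  · rintro ⟨f, h1, h2, h3⟩
    exact ⟨fun i => f (.inl i), fun i => f (.inr i), fun i j h => h1 i j h,
      fun i j h => h2 i j h, h3⟩
  · rintro ⟨f, g, h1, h2, h3⟩
    exact ⟨Sum.elim f g, fun i j h => h1 h, fun i j h => h2 h, h3⟩

/-- **Order-invariant first-order logic is contained in MSO on all classes of graphs which are
interdefinable with graphs without `K_{t,t}`.** -/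
theorem main_spars [Finite C] [Finite D] (t : ℕ)
    (η : Fin (k + 1) → Fin (k + 1) → MSO C (Fin 2) D) (θ : FO (C ⊕ (D ⊕ Fin (k + 1))) (Fin 2))
    (hθ : NoLt θ) (φ : FO C Empty) (hφ : OrderInvariant φ) :
    ∃ ψ : MSO C Empty Empty, ∀ (V : Type) [Finite V] (G : CG C V) (lt : V → V → Prop),
      IsStrictTotalOrder V lt →
      (ψ.Sat G Empty.elim Empty.elim ↔ Spars t η θ G ∧ φ.Sat G lt Empty.elim) := by
  obtain ⟨ψ, hψ⟩ := main_ktt (C ⊕ (D ⊕ Fin (k + 1))) t (trl θ φ) (trl_inv θ hθ φ hφ)
  -- the three properties of the interpreted graph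
  have g1 : Def C Empty D fun G v S => Ktt t (Interp η G S).gr := by
    obtain ⟨χ, hχ⟩ := def_ktt (C := C ⊕ (D ⊕ Fin (k + 1))) (α := Empty) (β := Empty) t
    refine Def.congr (Def.rename (def_interp η χ Empty.elim) (fun a => a)
      (Sum.elim (fun d => d) (fun p => p.1.elim))) ?_
    intro V G v S
    exact hχ _ _ _ _
  have g2 : Def C Empty D fun {V} G v S =>
      ψ.Sat (Interp η G S) (Empty.elim : Empty → V × Fin (k + 1)) Empty.elim := by
    refine Def.congr (Def.rename (def_interp η ψ Empty.elim) (fun a => a)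
      (Sum.elim (fun d => d) (fun p => p.1.elim))) ?_
    intro V G v S
    have h1 : (fun a : Empty => ((v a, Empty.elim a) : V × Fin (k + 1))) = Empty.elim := by
      funext a
      exact a.elim
    have h2 : (fun X : Empty => {p : V × Fin (k + 1) | p.1 ∈ S
        ((Sum.elim (fun d => d) (fun p => p.1.elim) : D ⊕ (Empty × Fin (k + 1)) → D)
          (.inr (X, p.2)))}) = Empty.elim := by
      funext a
      exact a.elim
    change ψ.Sat (Interp η G S) (fun a : Empty => ((v a, Empty.elim a) : V × Fin (k + 1)))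
      (fun X : Empty => {p : V × Fin (k + 1) | p.1 ∈ S
        ((Sum.elim (fun d => d) (fun p => p.1.elim) : D ⊕ (Empty × Fin (k + 1)) → D)
          (.inr (X, p.2)))}) ↔ _
    rw [h1, h2]
  have g3 : Def C Empty D fun G v S => ∀ x y, G.gr.Adj x y ↔
      θ.Sat (Interp η G S) (fun _ _ => False) ![(x, 0), (y, 0)] := by
    have h1 : Def C (Option (Option Empty)) D fun G v S =>
        θ.Sat (Interp η G S) (fun _ _ => False) ![(v (some none), 0), (v none, 0)] := by
      refine Def.congr (Def.rename (def_interp η (toMSO (β := Empty) θ) (fun _ => 0))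
        ![some none, none] (Sum.elim (fun d => d) (fun p => p.1.elim))) ?_
      intro V G v S
      rw [toMSO_sat _ (fun _ _ => False) θ hθ]
      have h2 : (fun a => ((v ((![some none, none] : Fin 2 → Option (Option Empty)) a), 0) :
          V × Fin (k + 1))) = ![(v (some none), 0), (v none, 0)] := by
        funext a
        fin_cases a <;> rfl
      rw [h2]
      exact Iff.rfl
    exact Def.congr (Def.all (Def.all (Def.iff (Def.adj (some none) none) h1)))
      (fun _ _ _ => Iff.rfl)
  obtain ⟨ω, hω⟩ := Def.close (Def.and g1 (Def.and g3 g2))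
  refine ⟨ω, ?_⟩
  intro V _ G lt hlt
  rw [hω V G Empty.elim Empty.elim]
  have key : ∀ S : D → Set V, Ktt t (Interp η G S).gr →
      (∀ x y, G.gr.Adj x y ↔ θ.Sat (Interp η G S) (fun _ _ => False) ![(x, 0), (y, 0)]) →
      (ψ.Sat (Interp η G S) (Empty.elim : Empty → V × Fin (k + 1)) Empty.elim ↔
        φ.Sat G lt Empty.elim) := by
    intro S h1 h2
    rw [hψ _ (Interp η G S) h1 (olx lt) (olx_strict lt hlt)]
    have h3 := trl_interp η θ hθ G S h2 lt φ Empty.elim
    have h4 : (fun a : Empty => ((Empty.elim a, 0) : V × Fin (k + 1))) = Empty.elim := by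
      funext a
      exact a.elim
    rw [h4] at h3
    exact h3
  constructor
  · rintro ⟨S, h1, h2, h3⟩
    exact ⟨⟨S, h1, h2⟩, (key S h1 h2).1 h3⟩
  · rintro ⟨⟨S, h1, h2⟩, h3⟩
    exact ⟨S, h1, h2, (key S h1 h2).2 h3⟩
end

end Pool.MP_33c730_lc.Ws
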