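import Pool.Agent.Lib.MP_33c730_lc.Ws.WOrd

set_option autoImplicit false

namespace Pool.MP_33c730_lc.Ws

variable {V : Type} [Finite V] [Nonempty V] {G : SimpleGraph V} {t : ℕ} {ν : V → ℕ}

/-! ### WDec: decoding the paths -/

theorem suffix_of_mem {a : V} {π : List V} (h : a ∈ π) : ∃ B, (a :: B) <:+ π := by
  obtain ⟨A, B, h1⟩ := List.append_of_mem h
  exact ⟨B, A, h1.symm⟩

theorem suffix_mem {a b : V} {A B π : List V} (ha : (a :: A) <:+ π) (hb : (b :: B) <:+ π)
    (hne : a ≠ b) : a ∈ B ∨ b ∈ A := by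
  rcases List.suffix_or_suffix_of_suffix ha hb with h | h
  · rcases List.suffix_cons_iff.1 h with h1 | h1
    · exact absurd (List.cons_eq_cons.1 h1).1 hne
    · exact Or.inl (h1.subset List.mem_cons_self)
  · rcases List.suffix_cons_iff.1 h with h1 | h1
    · exact absurd (List.cons_eq_cons.1 h1).1 (Ne.symm hne)
    · exact Or.inr (h1.subset List.mem_cons_self)

variable {W : PW t → Set V}

theorem ro_path (ht : 1 ≤ t) (hν : Function.Injective ν) (hW : Good G t ν W) {x : V}
    {π : List V} (hp : Pth G t ν x π) {y : V} {B : List V} (hy : (y :: B) <:+ π) (a : V) :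
    ro G W (st π) a y ↔ a ∈ y :: B := by
  constructor
  · intro h
    refine h (st (y :: B)) (by rw [mem_st]; exact List.mem_cons_self) ?_
    rintro u w hu ⟨h1, h2, h3, h4⟩
    obtain ⟨Bu, hBu⟩ := suffix_of_mem (mem_st.1 hu)
    have hBu' : (u :: Bu) <:+ π := hBu.trans hy
    obtain ⟨Bw, hBw⟩ := suffix_of_mem (mem_st.1 h2)
    rcases suffix_mem hBu' hBw h3.ne with h5 | h5
    · exfalso
      exact hW.noarc u w Bw (pl_node ht hν (pth_suffix hBw hp)) h5 h3 h4
    · exact hBu.subset (List.mem_cons_of_mem _ h5)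
  · intro h
    induction B generalizing y with
    | nil =>
      rw [List.mem_singleton] at h
      rw [h]
      exact fun Y hY _ => hY
    | cons z B ih =>
      rcases List.mem_cons.1 h with h1 | h1
      · rw [h1]
        exact fun Y hY _ => hY
      · have hz : (z :: B) <:+ π := (List.suffix_cons y (z :: B)).trans hy
        have h2 := ih hz h1
        have h3 : Pl G t ν y (z :: B) := pl_node ht hν (pth_suffix hy hp)
        have h4 : G.Adj y z := by
          rcases h3 with h3 | h3
          · exact sd_adj ht hν h3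
          · exact (re_adj ht hν h3).1
        intro Y hY hs
        refine h2 Y (hs y z hY ⟨hy.subset List.mem_cons_self, hz.subset List.mem_cons_self, h4,
          hW.arc y z B h3⟩) hs

theorem ini_path (ht : 1 ≤ t) (hν : Function.Injective ν) (hW : Good G t ν W) {x : V}
    {π : List V} (hp : Pth G t ν x π) {y : V} {B : List V} (hy : (y :: B) <:+ π) :
    ini G W (st π) y = st B := by
  have hn : y ∉ B := (List.nodup_cons.1 (pth_nodup ht hν (pth_suffix hy hp))).1
  ext a
  constructor
  · rintro ⟨-, h2, h3⟩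
    rw [ro_path ht hν hW hp hy] at h3
    rcases List.mem_cons.1 h3 with h4 | h4
    · exact absurd h4 h2
    · exact h4
  · intro h
    refine ⟨hy.subset (List.mem_cons_of_mem _ h), ?_, ?_⟩
    · rintro rfl
      exact hn h
    · rw [ro_path ht hν hW hp hy]
      exact List.mem_cons_of_mem _ h

theorem lst_path (ht : 1 ≤ t) (hν : Function.Injective ν) (hW : Good G t ν W) {x h l : V}
    {π : List V} (hp : Pth G t ν x (h :: π)) : lst G W (st (h :: π)) l ↔ l = h := by
  constructor
  · rintro ⟨h1, h2⟩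
    by_contra hne
    rcases List.mem_cons.1 h1 with h3 | h3
    · exact hne h3
    · obtain ⟨B, hB⟩ := suffix_of_mem h3
      have h4 := h2 h List.mem_cons_self
      rw [ro_path ht hν hW hp (hB.trans (List.suffix_cons h π))] at h4
      exact (List.nodup_cons.1 (pth_nodup ht hν hp)).1 (hB.subset h4)
  · rintro rfl
    refine ⟨List.mem_cons_self, fun a ha => ?_⟩
    rw [ro_path ht hν hW hp List.suffix_rfl]
    exact ha

theorem can_path (ht : 1 ≤ t) (hν : Function.Injective ν) (hW : Good G t ν W) {u v : V}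
    {π : List V} (hu : Re G t ν u π) (hv : Re G t ν v π) :
    can G W (st π) u v ↔ cn G ν π u v := by
  unfold can cn
  refine or_congr ?_ ?_
  · rw [tr_lt]
    constructor
    · rintro ⟨a, ha, h1, h2, h3⟩
      obtain ⟨B, hB⟩ := suffix_of_mem (mem_st.1 ha)
      have hn : a ∉ B := (List.nodup_cons.1 (pth_nodup ht hν (pth_suffix hB hu.1))).1
      refine ⟨a, B, hB, h1, h2, fun b hb => h3 b (hB.subset (List.mem_cons_of_mem _ hb)) ?_ ?_⟩
      · rintro rfl
        exact hn hb
      · rw [ro_path ht hν hW hu.1 hB]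
        exact List.mem_cons_of_mem _ hb
    · rintro ⟨a, B, hB, h1, h2, h3⟩
      refine ⟨a, hB.subset List.mem_cons_self, h1, h2, fun b _ hb' hb'' => h3 b ?_⟩
      rw [ro_path ht hν hW hu.1 hB] at hb''
      exact (List.mem_cons.1 hb'').resolve_left hb'
  · rw [tr_eq]
    constructor
    · rintro ⟨h1, h2⟩
      exact ⟨h1, (hW.tie u v π hu hv h1).1 h2⟩
    · rintro ⟨h1, h2⟩
      exact ⟨h1, (hW.tie u v π hu hv h1).2 h2⟩

theorem cnd_path (ht : 1 ≤ t) (hν : Function.Injective ν) (hW : Good G t ν W) {x r : V}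
    {π : List V} (hp : Pth G t ν x π) :
    cnd G W (st π) x r ↔ r ∈ Cds G t π (cm G (Lo G t (st π)) x) := by
  cases π with
  | nil =>
    constructor
    · rintro ⟨-, ⟨f, -, hf⟩, -⟩
      exact absurd (hf ⟨0, ht⟩).1 (by simp [st])
    · rintro ⟨-, ⟨f, -, hf⟩, -⟩
      exact absurd (hf ⟨0, ht⟩).1 (by simp [st])
  | cons h π =>
    have hn : h ∉ π := (List.nodup_cons.1 (pth_nodup ht hν hp)).1
    constructor
    · rintro ⟨h1, h2, ⟨l, h3, h4⟩, h5⟩
      rw [lst_path ht hν hW hp] at h3
      rw [h3, st_diff hn] at h4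
      exact ⟨h1, h2, h4, h5⟩
    · rintro ⟨h1, h2, h3, h4⟩
      refine ⟨h1, h2, ⟨h, (lst_path ht hν hW hp).2 rfl, ?_⟩, h4⟩
      rw [st_diff hn]
      exact h3

theorem sd_of {x y : V} {π : List V} (hp : Pth G t ν x π) (hx : x ∈ Lo G t (st π))
    (hy : y ∈ cm G (Lo G t (st π)) x) (h : y = nxx G t ν π x) : Sd G t ν y π :=
  ⟨pth_block hp hx hy, cm_sub hx hy, by rw [nxx_congr hx hy]; exact h⟩

theorem sdr_path (ht : 1 ≤ t) (hν : Function.Injective ν) (hW : Good G t ν W) {x y : V}
    {π : List V} (hp : Pth G t ν x π) (hx : x ∈ Lo G t (st π)) :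
    sdr G W (st π) x y ↔ y ∈ cm G (Lo G t (st π)) x ∧ Sd G t ν y π := by
  refine and_congr_right fun hy => ?_
  constructor
  · rintro ⟨j, h1, h2⟩
    obtain ⟨ρ, h3, h4, h5⟩ := (hW.sd j y).1 h1
    have h6 : y ∈ Lo G t (st π) := cm_sub hx hy
    have h7 := pl_max (Or.inl h3) (pth_block hp hx hy) h6.1
    by_cases he : ρ = π
    · rw [← he]
      exact h3
    · exfalso
      cases ρ with
      | nil =>
        rw [List.suffix_nil] at h7
        exact he h7.symm
      | cons h ρ =>
        rcases List.suffix_cons_iff.1 h7 with h8 | h8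
        · exact he h8.symm
        · have h9 : h ∉ st π := fun hh =>
            (List.nodup_cons.1 (pth_nodup ht hν h3.1)).1 (h8.subset hh)
          have h10 : atl G (insert h (st π)) (j + 1) y :=
            (atl_ins h9).2 (Or.inl ⟨sd_adj ht hν h3, h2⟩)
          refine h5 (atl_mono ?_ h10)
          rw [st_cons]
          exact Set.insert_subset_insert (st_mono h8)
  · intro h
    have h1 := h.2.1.2
    rw [atl_iff] at h1
    push Not at h1
    refine ⟨⟨_, h1⟩, (hW.sd ⟨_, h1⟩ y).2 ⟨π, h, ?_, ?_⟩, ?_⟩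
    · rw [atl_iff]
    · rw [atl_iff]
      push Not
      exact Nat.lt_succ_self _
    · rw [atl_iff]

theorem rul_path (ht : 1 ≤ t) (hν : Function.Injective ν) (hW : Good G t ν W) {x y : V}
    {π : List V} (hp : Pth G t ν x π) :
    rul G W (st π) y x ↔ x ∈ Lo G t (st π) ∧ y = nxx G t ν π x := by
  refine and_congr_right fun hx => ?_
  have hre : ∀ r, r ∈ Cds G t π (cm G (Lo G t (st π)) x) → Re G t ν r π := by
    intro r hr
    cases π with
    | nil =>
      obtain ⟨-, ⟨f, -, hf⟩, -⟩ := hr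
      exact absurd (hf ⟨0, ht⟩).1 (by simp [st])
    | cons h π => exact cds_re hp hr
  have hsd : ∀ z, sdr G W (st π) x z → z = nxx G t ν π x := by
    intro z hz
    rw [sdr_path ht hν hW hp hx] at hz
    rw [← nxx_congr hx hz.1]
    exact hz.2.2.2
  constructor
  · rintro (h | ⟨h1, h2, h3⟩)
    · exact hsd y h
    · rw [cnd_path ht hν hW hp] at h2
      rcases nxx_spec ht hν hp hx with h4 | ⟨-, h4, h5⟩
      · exact absurd ((sdr_path ht hν hW hp hx).2 ⟨h4.1, sd_of hp hx h4.1 rfl⟩) (h1 _)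
      · by_contra hne
        have h6 := h3 (nxx G t ν π x) ((cnd_path ht hν hW hp).2 h4) (Ne.symm hne)
        rw [can_path ht hν hW (hre _ h2) (hre _ h4)] at h6
        exact cn_asymm h6 (h5 y h2 hne)
  · intro h
    rcases nxx_spec ht hν hp hx with h4 | ⟨-, h4, h5⟩
    · rw [← h] at h4
      exact Or.inl ((sdr_path ht hν hW hp hx).2 ⟨h4.1, sd_of hp hx h4.1 h⟩)
    · rw [← h] at h4 h5
      refine Or.inr ⟨fun z hz => ?_, (cnd_path ht hν hW hp).2 h4, fun r hr hne => ?_⟩
      · have h6 := hsd z hz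
        rw [← h] at h6
        rw [sdr_path ht hν hW hp hx, h6] at hz
        exact hz.2.2.1.2 h4.2.1
      · rw [cnd_path ht hν hW hp] at hr
        rw [can_path ht hν hW (hre _ h4) (hre _ hr)]
        exact h5 r hr hne

end Pool.MP_33c730_lc.Ws
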