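import Pool.Agent.Lib.MP_33c730_lc.Ws.WPath

set_option autoImplicit false

namespace Pool.MP_33c730_lc.Ws

variable {V : Type} [Finite V] [Nonempty V] {G : SimpleGraph V} {t : ℕ} {ν : V → ℕ}

/-! ### WOrd: the order given by the paths is a forest order -/

theorem cn_asymm {π : List V} {u v : V} (h : cn G ν π u v) : ¬ cn G ν π v u := by
  unfold cn at *
  omega

theorem cn_trans {π : List V} {u v w : V} (h : cn G ν π u v) (h' : cn G ν π v w) :
    cn G ν π u w := by
  unfold cn at *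
  omega

theorem cn_total (hν : Function.Injective ν) {π : List V} {u v : V} :
    u = v ∨ cn G ν π u v ∨ cn G ν π v u := by
  unfold cn
  by_cases h : u = v
  · exact Or.inl h
  · have := hν.ne h
    omega

/-- the path above the block in which `u` is placed -/
def Sg (G : SimpleGraph V) (t : ℕ) (ν : V → ℕ) (u : V) (π : List V) : Prop :=
  Sd G t ν u π ∨ ∃ h, Re G t ν u (h :: π)

/-- comparison inside a block -/
def pr (G : SimpleGraph V) (t : ℕ) (ν : V → ℕ) (π : List V) (u w : V) : Prop :=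
  u = w ∨ Sd G t ν u π ∨ ∃ h, Re G t ν u (h :: π) ∧ Re G t ν w (h :: π) ∧ cn G ν (h :: π) u w

theorem sd_re {u h : V} {π : List V} (h1 : Sd G t ν u π) (h2 : Re G t ν u (h :: π)) : False := by
  have h3 := congrArg List.length (pl_unique (Or.inl h1) (Or.inr h2))
  simp at h3

theorem sg_exists (ht : 1 ≤ t) (hν : Function.Injective ν) (u : V) : ∃ π, Sg G t ν u π := by
  obtain ⟨π, h | h⟩ := pl_exists (G := G) ht hν u
  · exact ⟨π, Or.inl h⟩
  · cases π with
    | nil => exact absurd h (re_nil ht)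
    | cons y π => exact ⟨π, Or.inr ⟨y, h⟩⟩

theorem sg_lo {u : V} {π : List V} (h : Sg G t ν u π) : Pth G t ν u π ∧ u ∈ Lo G t (st π) := by
  rcases h with h | ⟨y, h⟩
  · exact ⟨h.1, h.2.1⟩
  · have h1 := pth_cons.1 h.1
    exact ⟨h1.1, h1.2.1⟩

theorem sg_suffix {u w : V} {π ρ : List V} (hu : Sg G t ν u π) (hw : Sg G t ν w ρ)
    (h : w ∈ cm G (Lo G t (st π)) u) : π <:+ ρ := by
  have h1 := sg_lo hu
  have h2 : w ∈ Lo G t (st π) := cm_sub h1.2 h
  have h3 : Pth G t ν w π := pth_block h1.1 h1.2 h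
  rcases hw with hw | ⟨y, hw⟩
  · exact pl_max (Or.inl hw) h3 h2.1
  · rcases List.suffix_cons_iff.1 (pl_max (Or.inr hw) h3 h2.1) with h4 | h4
    · rw [h4] at h2
      exact absurd hw.2.2 h2.2
    · exact h4

theorem sg_unique {u : V} {π ρ : List V} (h : Sg G t ν u π) (h' : Sg G t ν u ρ) : π = ρ := by
  have h1 := sg_suffix h h' cm_self
  have h2 := sg_suffix h' h cm_self
  exact h1.eq_of_length_le h2.length_le

theorem leP_iff {u w : V} {π : List V} (hu : Sg G t ν u π) : leP G t ν u w ↔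
    w ∈ cm G (Lo G t (st π)) u ∧ (Sg G t ν w π → pr G t ν π u w) := by
  constructor
  · rintro (⟨ρ, h1, h2⟩ | ⟨h, ρ, h1, h2, h3, h4⟩)
    · have h5 := sg_unique hu (Or.inl h1)
      subst h5
      exact ⟨h2, fun _ => Or.inr (Or.inl h1)⟩
    · have h5 := sg_unique hu (Or.inr ⟨h, h1⟩)
      subst h5
      have h6 := pth_cons.1 h1.1
      refine ⟨h2, fun hw => ?_⟩
      rcases h4 with h4 | h4
      · exact Or.inl h4
      · rcases hw with hw | ⟨y, hw⟩
        · exfalso
          refine h3 (List.mem_cons.2 (Or.inl ?_))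
          rw [h6.2.2, ← nxx_congr h6.2.1 h2]
          exact hw.2.2
        · have h7 := pth_cons.1 hw.1
          have h8 : y = h := by
            rw [h6.2.2, ← nxx_congr h6.2.1 h2]
            exact h7.2.2
          subst h8
          exact Or.inr (Or.inr ⟨y, h1, hw, h4 hw.2.2⟩)
  · rintro ⟨h1, h2⟩
    rcases hu with hu | ⟨h, hu⟩
    · exact Or.inl ⟨π, hu, h1⟩
    · have h3 := pth_cons.1 hu.1
      have h4 : w ∈ Lo G t (st π) := cm_sub h3.2.1 h1
      have h5 : w ∉ h :: π := by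
        intro hm
        rcases List.mem_cons.1 hm with hm | hm
        · have h6 : Sd G t ν w π := by
            refine ⟨pth_block h3.1 h3.2.1 h1, h4, ?_⟩
            rw [nxx_congr h3.2.1 h1, hm]
            exact h3.2.2
          rcases h2 (Or.inl h6) with h7 | h7 | ⟨y, h7, h8, -⟩
          · rw [← h7] at hm
            exact hu.2.1 (by rw [hm]; exact List.mem_cons_self)
          · exact sd_re h7 hu
          · exact sd_re h6 h8
        · exact h4.1 hm
      refine Or.inr ⟨h, π, hu, h1, h5, ?_⟩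
      by_cases he : u = w
      · exact Or.inl he
      · refine Or.inr fun ha => ?_
        have h6 : Re G t ν w (h :: π) := ⟨pth_block' hu.1 h1, h5, ha⟩
        rcases h2 (Or.inr ⟨h, h6⟩) with h7 | h7 | ⟨y, h7, h8, h9⟩
        · exact absurd h7 he
        · exact (sd_re h7 hu).elim
        · have h10 := pl_unique (Or.inr hu) (Or.inr h7)
          simp only [List.cons.injEq, and_true] at h10
          rw [h10]
          exact h9

theorem sg_total (hν : Function.Injective ν) {a b x : V} {π : List V} (ha : Sg G t ν a π)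
    (hb : Sg G t ν b π) (h1 : a ∈ cm G (Lo G t (st π)) x) (h2 : b ∈ cm G (Lo G t (st π)) x)
    (hx : x ∈ Lo G t (st π)) : pr G t ν π a b ∨ pr G t ν π b a := by
  rcases ha with ha | ⟨h, ha⟩
  · exact Or.inl (Or.inr (Or.inl ha))
  · rcases hb with hb | ⟨h', hb⟩
    · exact Or.inr (Or.inr (Or.inl hb))
    · have h3 := (pth_cons.1 ha.1).2.2
      have h4 := (pth_cons.1 hb.1).2.2
      rw [nxx_congr hx h1] at h3
      rw [nxx_congr hx h2] at h4
      have h5 : h = h' := h3.trans h4.symm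
      subst h5
      rcases cn_total (G := G) hν (π := h :: π) (u := a) (v := b) with h6 | h6 | h6
      · exact Or.inl (Or.inl h6)
      · exact Or.inl (Or.inr (Or.inr ⟨h, ha, hb, h6⟩))
      · exact Or.inr (Or.inr (Or.inr ⟨h, hb, ha, h6⟩))

theorem forest_leP (ht : 1 ≤ t) (hν : Function.Injective ν) : Forest G (leP G t ν) where
  refl x := by
    obtain ⟨π, hπ⟩ := sg_exists (G := G) ht hν x
    rw [leP_iff hπ]
    exact ⟨cm_self, fun _ => Or.inl rfl⟩
  antisymm x y hxy hyx := by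
    obtain ⟨π, hπ⟩ := sg_exists (G := G) ht hν x
    obtain ⟨ρ, hρ⟩ := sg_exists (G := G) ht hν y
    rw [leP_iff hπ] at hxy
    rw [leP_iff hρ] at hyx
    have h1 := sg_suffix hπ hρ hxy.1
    have h2 := sg_suffix hρ hπ hyx.1
    have h3 := h1.eq_of_length_le h2.length_le
    subst h3
    have h4 := hxy.2 hρ
    have h5 := hyx.2 hπ
    rcases h4 with h4 | h4 | ⟨h, h4, h4', h4''⟩
    · exact h4
    · rcases h5 with h5 | h5 | ⟨h, h5, h5', -⟩
      · exact h5.symm
      · have h6 := h4.2.2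
        have h7 := h5.2.2
        rw [nxx_congr h4.2.1 hxy.1, ← h6] at h7
        exact h7.symm
      · exact (sd_re h4 h5').elim
    · rcases h5 with h5 | h5 | ⟨h', h5, h5', h5''⟩
      · exact h5.symm
      · exact (sd_re h5 h4').elim
      · have h6 := pl_unique (Or.inr h4) (Or.inr h5')
        simp only [List.cons.injEq, and_true] at h6
        subst h6
        exact absurd h5'' (cn_asymm h4'')
  trans x y z hxy hyz := by
    obtain ⟨π, hπ⟩ := sg_exists (G := G) ht hν x
    obtain ⟨ρ, hρ⟩ := sg_exists (G := G) ht hν y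
    rw [leP_iff hπ] at hxy ⊢
    rw [leP_iff hρ] at hyz
    have h1 := sg_suffix hπ hρ hxy.1
    have h2 : z ∈ cm G (Lo G t (st π)) y := cm_mono (Lo_anti (st_mono h1)) hyz.1
    refine ⟨cm_trans hxy.1 h2, fun hz => ?_⟩
    have h3 := sg_suffix hρ hz hyz.1
    have h4 := h1.eq_of_length_le h3.length_le
    subst h4
    have h5 := hxy.2 hρ
    have h6 := hyz.2 hz
    rcases h5 with h5 | h5 | ⟨h, h5, h5', h5''⟩
    · rw [h5]
      exact h6
    · exact Or.inr (Or.inl h5)
    · rcases h6 with h6 | h6 | ⟨h', h6, h6', h6''⟩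
      · rw [← h6]
        exact Or.inr (Or.inr ⟨h, h5, h5', h5''⟩)
      · exact (sd_re h6 h5').elim
      · have h7 := pl_unique (Or.inr h5') (Or.inr h6)
        simp only [List.cons.injEq, and_true] at h7
        subst h7
        exact Or.inr (Or.inr ⟨h, h5, h6', cn_trans h5'' h6''⟩)
  chain a b x hax hbx := by
    obtain ⟨π, hπ⟩ := sg_exists (G := G) ht hν a
    obtain ⟨ρ, hρ⟩ := sg_exists (G := G) ht hν b
    rw [leP_iff hπ] at hax ⊢
    rw [leP_iff hρ] at hbx
    rw [leP_iff hρ]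
    have ha := sg_lo hπ
    have hb := sg_lo hρ
    have h1 : Pth G t ν x π := pth_block ha.1 ha.2 hax.1
    have h2 : Pth G t ν x ρ := pth_block hb.1 hb.2 hbx.1
    have h3 : x ∈ Lo G t (st π) := cm_sub ha.2 hax.1
    have h4 : x ∈ Lo G t (st ρ) := cm_sub hb.2 hbx.1
    have h5 : a ∈ cm G (Lo G t (st π)) x := cm_symm ha.2 hax.1
    have h6 : b ∈ cm G (Lo G t (st ρ)) x := cm_symm hb.2 hbx.1
    by_cases he : π = ρ
    · subst he
      rcases sg_total hν hπ hρ h5 h6 h3 with h7 | h7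
      · exact Or.inl ⟨cm_trans hax.1 h6, fun _ => h7⟩
      · exact Or.inr ⟨cm_trans hbx.1 h5, fun _ => h7⟩
    · rcases pth_comp h1 h2 with h7 | h7
      · refine Or.inl ⟨cm_trans hax.1 (cm_mono (Lo_anti (st_mono h7)) h6), fun hb' => ?_⟩
        exact absurd (sg_unique hb' hρ) he
      · refine Or.inr ⟨cm_trans hbx.1 (cm_mono (Lo_anti (st_mono h7)) h5), fun ha' => ?_⟩
        exact absurd (sg_unique hπ ha') he
  comp x y hxy := by
    classical
    obtain ⟨ρx, hx⟩ := sg_exists (G := G) ht hν x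
    obtain ⟨ρy, hy⟩ := sg_exists (G := G) ht hν y
    -- a longest common path
    have hex : ∃ n, ∃ π : List V, π.length = n ∧ Pth G t ν x π ∧ Pth G t ν y π ∧
        x ∈ Lo G t (st π) ∧ y ∈ Lo G t (st π) := by
      have hlo : ∀ z : V, z ∈ Lo G t (st ([] : List V)) := by
        intro z
        rw [st_nil]
        refine ⟨fun h => h, ?_⟩
        rintro ⟨f, -, hf⟩
        exact (hf ⟨0, ht⟩).1
      exact ⟨0, [], rfl, Pth.nil, Pth.nil, hlo x, hlo y⟩
    have hbd : ∀ n, (∃ π : List V, π.length = n ∧ Pth G t ν x π ∧ Pth G t ν y π ∧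
        x ∈ Lo G t (st π) ∧ y ∈ Lo G t (st π)) → n ≤ Nat.card V := by
      rintro n ⟨π, h1, h2, -⟩
      have := Fintype.ofFinite V
      rw [← h1, Nat.card_eq_fintype_card]
      exact (pth_nodup ht hν h2).length_le_card
    obtain ⟨n, ⟨π, hlen, h1, h2, h3, h4⟩, hmax⟩ : ∃ n, (∃ π : List V, π.length = n ∧
        Pth G t ν x π ∧ Pth G t ν y π ∧ x ∈ Lo G t (st π) ∧ y ∈ Lo G t (st π)) ∧
        ∀ π : List V, π.length = n + 1 → Pth G t ν x π → Pth G t ν y π →
          x ∈ Lo G t (st π) → y ∈ Lo G t (st π) → False := by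
      obtain ⟨n0, hn0⟩ := hex
      have h5 := Nat.findGreatest_spec (P := fun n => ∃ π : List V, π.length = n ∧
        Pth G t ν x π ∧ Pth G t ν y π ∧ x ∈ Lo G t (st π) ∧ y ∈ Lo G t (st π))
        (hbd n0 hn0) hn0
      refine ⟨_, h5, fun π h6 h7 h8 h9 h10 => ?_⟩
      have h11 := Nat.le_findGreatest (P := fun n => ∃ π : List V, π.length = n ∧
        Pth G t ν x π ∧ Pth G t ν y π ∧ x ∈ Lo G t (st π) ∧ y ∈ Lo G t (st π))
        (hbd (π.length) ⟨π, rfl, h7, h8, h9, h10⟩) ⟨π, rfl, h7, h8, h9, h10⟩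
      omega
    have h5 : y ∈ cm G (Lo G t (st π)) x := cm_step cm_self h4 hxy
    have h6 : x ∈ cm G (Lo G t (st π)) y := cm_step cm_self h3 hxy.symm
    have h7 : Pth G t ν x (nxx G t ν π x :: π) := Pth.cons π h1 h3
    have h8 : Pth G t ν y (nxx G t ν π x :: π) := by
      rw [← nxx_congr h3 h5]
      exact Pth.cons π h2 h4
    have h9 : ∀ z, Pth G t ν z (nxx G t ν π x :: π) → z ∈ cm G (Lo G t (st π)) x →
        z ∉ Lo G t (st (nxx G t ν π x :: π)) → Sg G t ν z π := by
      intro z hz hzc hzl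
      have h10 := pth_cons.1 hz
      by_cases hm : z ∈ nxx G t ν π x :: π
      · rcases List.mem_cons.1 hm with hm | hm
        · exact Or.inl ⟨h10.1, h10.2.1, hm.trans h10.2.2⟩
        · exact absurd hm h10.2.1.1
      · refine Or.inr ⟨_, hz, hm, ?_⟩
        by_contra hat
        exact hzl ⟨hm, hat⟩
    have h10 : Sg G t ν x π ∨ Sg G t ν y π := by
      by_cases hxl : x ∈ Lo G t (st (nxx G t ν π x :: π))
      · by_cases hyl : y ∈ Lo G t (st (nxx G t ν π x :: π))
        · exact (hmax _ (by simp [hlen]) h7 h8 hxl hyl).elim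
        · exact Or.inr (h9 y h8 h5 hyl)
      · exact Or.inl (h9 x h7 cm_self hxl)
    by_cases hsx : Sg G t ν x π
    · by_cases hsy : Sg G t ν y π
      · rcases sg_total hν hsx hsy cm_self h5 h3 with h11 | h11
        · exact Or.inl ((leP_iff hsx).2 ⟨h5, fun _ => h11⟩)
        · exact Or.inr ((leP_iff hsy).2 ⟨h6, fun _ => h11⟩)
      · exact Or.inl ((leP_iff hsx).2 ⟨h5, fun h => absurd h hsy⟩)
    · rcases h10 with h10 | h10
      · exact absurd h10 hsx
      · exact Or.inr ((leP_iff h10).2 ⟨h6, fun h => absurd h hsx⟩)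

end Pool.MP_33c730_lc.Ws
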