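import Pool.Agent.Lib.MP_33c730_lc.Ws.WBase

set_option autoImplicit false

namespace Pool.MP_33c730_lc.Ws

variable {V : Type} [Finite V] [Nonempty V] {G : SimpleGraph V} {t : ℕ} {ν : V → ℕ}

/-! ### WPath: paths -/

theorem pth_cons {x y : V} {π : List V} : Pth G t ν x (y :: π) ↔
    Pth G t ν x π ∧ x ∈ Lo G t (st π) ∧ y = nxx G t ν π x := by
  constructor
  · intro h
    cases h with
    | cons π h1 h2 => exact ⟨h1, h2, rfl⟩
  · rintro ⟨h1, h2, rfl⟩
    exact Pth.cons π h1 h2

theorem pth_suffix {x : V} {π ρ : List V} (h : ρ <:+ π) (hp : Pth G t ν x π) :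
    Pth G t ν x ρ := by
  induction π with
  | nil =>
    rw [List.suffix_nil] at h
    rw [h]
    exact Pth.nil
  | cons y π ih =>
    rcases List.suffix_cons_iff.1 h with h1 | h1
    · rw [h1]
      exact hp
    · exact ih h1 (pth_cons.1 hp).1

theorem pth_len {x : V} : ∀ {π ρ : List V}, Pth G t ν x π → Pth G t ν x ρ →
    π.length = ρ.length → π = ρ := by
  intro π
  induction π with
  | nil =>
    intro ρ _ _ h
    exact (List.length_eq_zero_iff.1 h.symm).symm
  | cons y π ih =>
    intro ρ h1 h2 h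
    cases ρ with
    | nil => simp at h
    | cons z ρ =>
      have h3 := pth_cons.1 h1
      have h4 := pth_cons.1 h2
      have h5 := ih h3.1 h4.1 (by simpa using h)
      subst h5
      rw [h3.2.2, h4.2.2]

/-- two paths of `x` are comparable. -/
theorem pth_comp {x : V} {π ρ : List V} (h1 : Pth G t ν x π) (h2 : Pth G t ν x ρ) :
    π <:+ ρ ∨ ρ <:+ π := by
  rcases le_total π.length ρ.length with h | h
  · left
    have h3 : ρ.drop (ρ.length - π.length) <:+ ρ := List.drop_suffix _ _
    have h4 := pth_len h1 (pth_suffix h3 h2) (by rw [List.length_drop]; omega)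
    rw [h4]
    exact h3
  · right
    have h3 : π.drop (π.length - ρ.length) <:+ π := List.drop_suffix _ _
    have h4 := pth_len h2 (pth_suffix h3 h1) (by rw [List.length_drop]; omega)
    rw [h4]
    exact h3

theorem nxx_congr {π : List V} {x z : V} (hx : x ∈ Lo G t (st π))
    (hz : z ∈ cm G (Lo G t (st π)) x) : nxx G t ν π z = nxx G t ν π x := by
  unfold nxx
  rw [cm_eq hx hz]

/-- vertices of the same block have the same paths. -/
theorem pth_block {x z : V} {π : List V} (hp : Pth G t ν x π) (hx : x ∈ Lo G t (st π))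
    (hz : z ∈ cm G (Lo G t (st π)) x) : Pth G t ν z π := by
  induction π with
  | nil => exact Pth.nil
  | cons y π ih =>
    have h1 := pth_cons.1 hp
    have h2 : Lo G t (st (y :: π)) ⊆ Lo G t (st π) := Lo_anti (st_mono (List.suffix_cons y π))
    have h3 : z ∈ cm G (Lo G t (st π)) x := cm_mono h2 hz
    rw [pth_cons]
    exact ⟨ih h1.1 h1.2.1 h3, cm_sub h1.2.1 h3, h1.2.2.trans (nxx_congr h1.2.1 h3).symm⟩

theorem pth_block' {x y z : V} {π : List V} (hp : Pth G t ν x (y :: π))
    (hz : z ∈ cm G (Lo G t (st π)) x) : Pth G t ν z (y :: π) := by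
  have h1 := pth_cons.1 hp
  rw [pth_cons]
  exact ⟨pth_block h1.1 h1.2.1 hz, cm_sub h1.2.1 hz, h1.2.2.trans (nxx_congr h1.2.1 hz).symm⟩

omit [Nonempty V] in
/-- minimal elements for the comparison exist. -/
theorem cn_min (hν : Function.Injective ν) (π : List V) (A : Set V) (hA : A.Nonempty) :
    ∃ r ∈ A, ∀ r' ∈ A, r' ≠ r → cn G ν π r r' := by
  obtain ⟨r, hr, hmin⟩ := Set.exists_min_image A
    (fun a => (toLex (tr G π a, ν a) : ℕ ×ₗ ℕ)) (Set.toFinite _) hA
  refine ⟨r, hr, fun r' hr' hne => ?_⟩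
  have h1 := hmin r' hr'
  rw [Prod.Lex.toLex_le_toLex] at h1
  rcases h1 with h1 | ⟨h1, h2⟩
  · exact Or.inl h1
  · refine Or.inr ⟨h1, lt_of_le_of_ne h2 fun h => hne (hν h.symm)⟩

theorem nx_seed {π : List V} {D : Set V} (h : (Sds G π D).Nonempty) :
    nx G t ν π D ∈ Sds G π D := by
  unfold nx
  rw [if_pos h]
  exact Classical.epsilon_spec h

theorem nx_conn (hν : Function.Injective ν) {π : List V} {D : Set V}
    (h : ¬ (Sds G π D).Nonempty) (h' : (Cds G t π D).Nonempty) :
    nx G t ν π D ∈ Cds G t π D ∧ ∀ r' ∈ Cds G t π D, r' ≠ nx G t ν π D →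
      cn G ν π (nx G t ν π D) r' := by
  unfold nx
  rw [if_neg h]
  obtain ⟨r, hr, hr'⟩ := cn_min hν π _ h'
  exact Classical.epsilon_spec
    (p := fun r => r ∈ Cds G t π D ∧ ∀ r' ∈ Cds G t π D, r' ≠ r → cn G ν π r r') ⟨r, hr, hr'⟩

/-- The next node is a seed of the block or a minimal connector. -/
theorem nxx_spec (ht : 1 ≤ t) (hν : Function.Injective ν) {x : V} {π : List V}
    (hp : Pth G t ν x π) (hx : x ∈ Lo G t (st π)) :
    nxx G t ν π x ∈ Sds G π (cm G (Lo G t (st π)) x) ∨
    (¬ (Sds G π (cm G (Lo G t (st π)) x)).Nonempty ∧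
      nxx G t ν π x ∈ Cds G t π (cm G (Lo G t (st π)) x) ∧
      ∀ r' ∈ Cds G t π (cm G (Lo G t (st π)) x), r' ≠ nxx G t ν π x →
        cn G ν π (nxx G t ν π x) r') := by
  induction π with
  | nil =>
    refine Or.inl (nx_seed ⟨x, cm_self, fun h hh => ?_⟩)
    simp at hh
  | cons h π ih =>
    by_cases hs : (Sds G (h :: π) (cm G (Lo G t (st (h :: π))) x)).Nonempty
    · exact Or.inl (nx_seed hs)
    · refine Or.inr ⟨hs, nx_conn hν hs ?_⟩
      have h1 := pth_cons.1 hp
      have h2 : Lo G t (st (h :: π)) ⊆ Lo G t (st π) := Lo_anti (st_mono (List.suffix_cons h π))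
      have h3 : ∀ d ∈ cm G (Lo G t (st (h :: π))) x, ¬ G.Adj h d := by
        intro d hd ha
        refine hs ⟨d, hd, fun h' hh' => ?_⟩
        simp only [List.head?_cons, Option.some.injEq] at hh'
        rw [← hh']
        exact ha
      -- the old block has an element outside of the new one
      have h4 : ∃ z ∈ cm G (Lo G t (st π)) x, z ∉ cm G (Lo G t (st (h :: π))) x := by
        have hh : h ∉ cm G (Lo G t (st (h :: π))) x := fun hh =>
          (cm_sub hx hh).1 (by rw [mem_st]; exact List.mem_cons_self)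
        rcases ih h1.1 h1.2.1 with h5 | ⟨-, h5, -⟩
        · rw [← h1.2.2] at h5
          exact ⟨h, h5.1, hh⟩
        · rw [← h1.2.2] at h5
          obtain ⟨d, hd, ha⟩ := h5.2.2.2
          exact ⟨d, hd, fun hd' => h3 d hd' ha⟩
      obtain ⟨z, hz, hz'⟩ := h4
      obtain ⟨u, w, hu, huA, hw, hwA, ha⟩ := cm_edge h1.2.1 cm_self hz hz'
      have hwl : w ∈ Lo G t (st π) := cm_sub h1.2.1 hw
      have hwh : w ≠ h := by
        rintro rfl
        exact h3 u huA ha.symm
      refine ⟨w, ?_, ?_, hwl, u, huA, ha.symm⟩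
      · intro hm
        rcases List.mem_cons.1 hm with hm | hm
        · exact hwh hm
        · exact hwl.1 hm
      · by_contra hat
        refine hwA (cm_step huA ⟨?_, hat⟩ ha)
        intro hm
        rcases List.mem_cons.1 hm with hm | hm
        · exact hwh hm
        · exact hwl.1 hm

/-- the next node is not on the path. -/
theorem nxx_notMem (ht : 1 ≤ t) (hν : Function.Injective ν) {x : V} {π : List V}
    (hp : Pth G t ν x π) (hx : x ∈ Lo G t (st π)) : nxx G t ν π x ∉ π := by
  rcases nxx_spec ht hν hp hx with h | ⟨-, h, -⟩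
  · exact fun hm => (cm_sub hx h.1).1 hm
  · exact h.1

theorem pth_nodup (ht : 1 ≤ t) (hν : Function.Injective ν) {x : V} {π : List V}
    (hp : Pth G t ν x π) : π.Nodup := by
  induction π with
  | nil => exact List.nodup_nil
  | cons y π ih =>
    have h1 := pth_cons.1 hp
    rw [List.nodup_cons]
    refine ⟨?_, ih h1.1⟩
    rw [h1.2.2]
    exact nxx_notMem ht hν h1.1 h1.2.1

/-- a seed is adjacent to the last node. -/
theorem sd_adj (ht : 1 ≤ t) (hν : Function.Injective ν) {h v : V} {π : List V}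
    (hs : Sd G t ν v (h :: π)) : G.Adj v h := by
  rcases nxx_spec ht hν hs.1 hs.2.1 with h1 | ⟨-, h1, -⟩
  · rw [← hs.2.2] at h1
    exact (h1.2 h rfl).symm
  · rw [← hs.2.2] at h1
    exact absurd h1.2.1 hs.2.1.2

/-- a vertex resolved by a path is adjacent to its last node. -/
theorem re_adj {h v : V} {π : List V} (ht : 1 ≤ t) (hν : Function.Injective ν)
    (hs : Re G t ν v (h :: π)) : G.Adj v h ∧ v ∈ Lo G t (st π) ∧
      ¬ atl G (st (h :: π)) (t + 1) v := by
  obtain ⟨h1, h2, h3⟩ := hs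
  have h4 := pth_cons.1 h1
  have h5 : h ∉ st π := (List.nodup_cons.1 (pth_nodup ht hν h1)).1
  obtain ⟨s, rfl⟩ : ∃ s, t = s + 1 := ⟨t - 1, by omega⟩
  have h6 : G.Adj v h := by
    rw [st_cons, atl_ins h5] at h3
    rcases h3 with h3 | h3
    · exact h3.1
    · exact absurd h3 h4.2.1.2
  refine ⟨h6, h4.2.1, ?_⟩
  rw [st_cons, atl_ins h5]
  rintro (h7 | h7)
  · exact h4.2.1.2 h7.2
  · exact h4.2.1.2 (atl_le (by omega) h7)

theorem re_nil {v : V} (ht : 1 ≤ t) : ¬ Re G t ν v [] := by
  rintro ⟨-, -, f, -, h⟩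
  have := (h ⟨0, ht⟩).1
  simp [st] at this

/-- existence of the place -/
theorem pl_exists (ht : 1 ≤ t) (hν : Function.Injective ν) (v : V) : ∃ π, Pl G t ν v π := by
  classical
  have := Fintype.ofFinite V
  by_contra hc
  push Not at hc
  have key : ∀ n : ℕ, ∃ π, π.length = n ∧ Pth G t ν v π ∧ v ∉ π := by
    intro n
    induction n with
    | zero => exact ⟨[], rfl, Pth.nil, by simp⟩
    | succ n ih =>
      obtain ⟨π, h1, h2, h3⟩ := ih
      have h4 : v ∈ Lo G t (st π) := ⟨h3, fun h => hc π (Or.inr ⟨h2, h3, h⟩)⟩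
      refine ⟨nxx G t ν π v :: π, by simp [h1], Pth.cons π h2 h4, ?_⟩
      intro hm
      rcases List.mem_cons.1 hm with hm | hm
      · exact hc π (Or.inl ⟨h2, h4, hm⟩)
      · exact h3 hm
  obtain ⟨π, h1, h2, -⟩ := key (Fintype.card V + 1)
  have h3 := (pth_nodup ht hν h2).length_le_card
  omega

theorem pl_notMem {v : V} {π : List V} (h : Pl G t ν v π) : v ∉ π := by
  rcases h with h | h
  · exact h.2.1.1
  · exact h.2.1

theorem pl_pth {v : V} {π : List V} (h : Pl G t ν v π) : Pth G t ν v π := by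
  rcases h with h | h
  · exact h.1
  · exact h.1

/-- a path of `v` which does not contain `v` is contained in the place of `v`. -/
theorem pl_max {v : V} {π ρ : List V} (h : Pl G t ν v π) (hp : Pth G t ν v ρ) (hv : v ∉ ρ) :
    ρ <:+ π := by
  rcases pth_comp hp (pl_pth h) with h1 | h1
  · exact h1
  · by_cases he : ρ.length ≤ π.length
    · rw [h1.eq_of_length_le he]
    · exfalso
      obtain ⟨σ, hσ⟩ := h1
      have h2 : ∃ y τ, (y :: π) <:+ ρ ∧ σ = τ ++ [y] := by
        rcases List.eq_nil_or_concat σ with h3 | ⟨τ, y, h3⟩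
        · rw [h3, List.nil_append] at hσ
          rw [hσ] at he
          exact absurd le_rfl he
        · rw [List.concat_eq_append] at h3
          refine ⟨y, τ, ⟨τ, ?_⟩, h3⟩
          rw [← hσ, h3]
          simp
      obtain ⟨y, τ, h3, -⟩ := h2
      have h4 := pth_cons.1 (pth_suffix h3 hp)
      rcases h with h | h
      · have h5 : v = y := h.2.2.trans h4.2.2.symm
        exact hv (h3.subset (by rw [h5]; exact List.mem_cons_self))
      · exact h4.2.1.2 h.2.2

theorem pl_unique {v : V} {π ρ : List V} (h : Pl G t ν v π) (h' : Pl G t ν v ρ) : π = ρ := by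
  have h1 := pl_max h (pl_pth h') (pl_notMem h')
  have h2 := pl_max h' (pl_pth h) (pl_notMem h)
  exact h2.eq_of_length_le h1.length_le

/-- a node of a path is placed at the preceding part of the path. -/
theorem pl_node (ht : 1 ≤ t) (hν : Function.Injective ν) {x y : V} {B : List V}
    (hp : Pth G t ν x (y :: B)) : Pl G t ν y B := by
  have h1 := pth_cons.1 hp
  rcases nxx_spec ht hν h1.1 h1.2.1 with h2 | ⟨-, h2, -⟩
  · rw [← h1.2.2] at h2
    refine Or.inl ⟨pth_block h1.1 h1.2.1 h2.1, cm_sub h1.2.1 h2.1, ?_⟩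
    rw [nxx_congr h1.2.1 h2.1]
    exact h1.2.2
  · rw [← h1.2.2] at h2
    refine Or.inr ⟨?_, h2.1, h2.2.1⟩
    cases B with
    | nil => exact Pth.nil
    | cons h B =>
      have h3 := pth_cons.1 h1.1
      obtain ⟨d, hd, ha⟩ := h2.2.2.2
      refine pth_block' h1.1 (cm_step ?_ h2.2.2.1 ha.symm)
      exact cm_mono (Lo_anti (st_mono (List.suffix_cons h B))) hd

/-- connectors are resolved. -/
theorem cds_re {x h r : V} {π : List V} (hp : Pth G t ν x (h :: π))
    (hr : r ∈ Cds G t (h :: π) (cm G (Lo G t (st (h :: π))) x)) : Re G t ν r (h :: π) := by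
  obtain ⟨h1, h2, h3, d, hd, ha⟩ := hr
  refine ⟨pth_block' hp (cm_step ?_ h3 ha.symm), h1, h2⟩
  exact cm_mono (Lo_anti (st_mono (List.suffix_cons h π))) hd

end Pool.MP_33c730_lc.Ws
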